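import Pool.Agent.H16.PI.Base

set_option autoImplicit false

namespace Pool.Agent.H16.PI

open Polynomial Pool.Agent Pool.Agent.Helper35

lemma NR_aeval (R S : ℤ[X]) (z : ℂ) : aeval z (NR R S) =
    resultant (S.map (Int.castRingHom ℂ)) (C z - R.map (Int.castRingHom ℂ))
      S.natDegree R.natDegree := by
  have h1 : aeval z (NR R S) = (eval₂RingHom (Int.castRingHom ℂ) z) (NR R S) := rfl
  rw [h1]
  unfold NR
  rw [← resultant_map_map]
  have e1 : (S.map (C : ℤ →+* ℤ[X])).map (eval₂RingHom (Int.castRingHom ℂ) z) =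
      S.map (Int.castRingHom ℂ) := by
    rw [Polynomial.map_map]
    congr 1
    ext
    simp
  have e2 : (C (X : ℤ[X]) - R.map (C : ℤ →+* ℤ[X])).map (eval₂RingHom (Int.castRingHom ℂ) z) =
      C z - R.map (Int.castRingHom ℂ) := by
    rw [Polynomial.map_sub, Polynomial.map_C, Polynomial.map_map]
    congr 1
    · simp
    · congr 1
      ext
      simp
  rw [e1, e2]

theorem stA : StA := by
  intro R S hR hS
  have hSd : (S.map (Int.castRingHom ℂ)).natDegree = S.natDegree :=
    natDegree_map_eq_of_injective (RingHom.injective_int _) _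
  apply Polynomial.funext
  intro z
  have h1 : eval z ((NR R S).map (Int.castRingHom ℂ)) = aeval z (NR R S) := by
    rw [eval_map]; rfl
  have hg : (C z - R.map (Int.castRingHom ℂ)).natDegree ≤ R.natDegree := by
    refine (natDegree_sub_le _ _).trans ?_
    rw [natDegree_C]
    exact max_le (Nat.zero_le _) natDegree_map_le
  rw [h1, NR_aeval, ← hSd, resultant_eq_prod_eval _ _ _ hg (IsAlgClosed.splits _), eval_mul,
    eval_C, eval_multiset_prod, Multiset.map_map,
    leadingCoeff_map_of_injective (RingHom.injective_int _)]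
  congr 2
  · apply Multiset.map_congr rfl
    intro a _
    simp only [Function.comp_apply, eval_sub, eval_C, eval_X, eval_map]
    rfl

theorem stB : StB := by
  intro R S p hp hR hlead hS hS0 hd
  have : Fact p.Prime := ⟨hp⟩
  have h0 : (NR R S).coeff 0 = resultant S (-R) S.natDegree R.natDegree := by
    rw [coeff_zero_eq_eval_zero]
    have h1 : eval 0 (NR R S) = (evalRingHom (0 : ℤ)) (NR R S) := rfl
    rw [h1]
    unfold NR
    rw [← resultant_map_map]
    congr 1
    · rw [Polynomial.map_map]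
      have : (evalRingHom (0 : ℤ)).comp (C : ℤ →+* ℤ[X]) = RingHom.id ℤ := by
        ext x
        simp
      rw [this, Polynomial.map_id]
    · rw [Polynomial.map_sub, Polynomial.map_C, Polynomial.map_map]
      have : (evalRingHom (0 : ℤ)).comp (C : ℤ →+* ℤ[X]) = RingHom.id ℤ := by
        ext x
        simp
      rw [this, Polynomial.map_id]
      simp
  have hz : ((resultant S (-R) S.natDegree R.natDegree : ℤ) : ZMod p) = 0 := by
    rw [← h0]
    exact (ZMod.intCast_zmod_eq_zero_iff_dvd _ p).2 hd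
  have h2 : ((resultant S (-R) S.natDegree R.natDegree : ℤ) : ZMod p) =
      (Int.castRingHom (ZMod p)) (resultant S (-R) S.natDegree R.natDegree) := rfl
  rw [h2, ← resultant_map_map] at hz
  have hSC : S.map (Int.castRingHom (ZMod p)) = C ((S.coeff 0 : ℤ) : ZMod p) := by
    ext i
    rw [coeff_map, coeff_C]
    split_ifs with hi
    · rw [hi]; rfl
    · exact (ZMod.intCast_zmod_eq_zero_iff_dvd _ p).2 (hS i (by omega))
  rw [hSC, resultant_C_left] at hz
  have e1 : ((-R).map (Int.castRingHom (ZMod p))).coeff R.natDegree =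
      -((R.leadingCoeff : ℤ) : ZMod p) := by
    rw [coeff_map, coeff_neg, coeff_natDegree]
    simp
  rw [e1] at hz
  have n1 : ((R.leadingCoeff : ℤ) : ZMod p) ≠ 0 := fun h =>
    hlead ((ZMod.intCast_zmod_eq_zero_iff_dvd _ p).1 h)
  have n2 : ((S.coeff 0 : ℤ) : ZMod p) ≠ 0 := fun h =>
    hS0 ((ZMod.intCast_zmod_eq_zero_iff_dvd _ p).1 h)
  have n3 : (-1 : ZMod p) ≠ 0 := neg_ne_zero.2 one_ne_zero
  exact (mul_ne_zero (mul_ne_zero (pow_ne_zero _ n3) (pow_ne_zero _ (neg_ne_zero.2 n1)))
    (pow_ne_zero _ n2)) hz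

end Pool.Agent.H16.PI
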