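import Pool.Graph.R_seed8.Y821.PW.H

set_option autoImplicit false

namespace Pool.Agent.H16.PI

open Polynomial Pool.Agent Pool.Agent.Helper35

/-- `NR R S` is the resultant with respect to `Y` of `S(Y)` and `X - R(Y)`. -/
noncomputable def NR (R S : ℤ[X]) : ℤ[X] :=
  resultant (S.map (C : ℤ →+* ℤ[X])) (C (X : ℤ[X]) - R.map (C : ℤ →+* ℤ[X]))
    S.natDegree R.natDegree

/-- product formula -/
def StA : Prop := ∀ R S : ℤ[X], 1 ≤ R.natDegree → S ≠ 0 →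
  (NR R S).map (Int.castRingHom ℂ) = C ((S.leadingCoeff : ℂ) ^ R.natDegree) *
    ((S.map (Int.castRingHom ℂ)).roots.map (fun a : ℂ => (X : ℂ[X]) - C (aeval a R))).prod

/-- the constant coefficient modulo a prime -/
def StB : Prop := ∀ (R S : ℤ[X]) (p : ℕ), p.Prime → 1 ≤ R.natDegree →
  ¬ ((p : ℤ) ∣ R.leadingCoeff) → (∀ i, 1 ≤ i → (p : ℤ) ∣ S.coeff i) →
  ¬ ((p : ℤ) ∣ S.coeff 0) → ¬ ((p : ℤ) ∣ (NR R S).coeff 0)

/-- if `S` divides `P(R(X))` and `deg S` is prime to `(deg R)!` then `P` is the norm of `S` -/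
def StC : Prop := ∀ R S P : ℤ[X], 1 ≤ R.natDegree → IrrQ S → IrrQ P → S ∣ P.comp R →
  Nat.Coprime S.natDegree R.natDegree.factorial →
  P.natDegree = S.natDegree ∧ ∃ (g r : ℤ) (p : ℤ[X]), g ≠ 0 ∧ r ≠ 0 ∧ P = C g * p ∧
    NR R S = C r * p

/-- the norms of the special polynomials are not smaller than the special polynomials -/
def StD : Prop := ∀ {e V Mq : ℕ → ℕ} (X : SData e V Mq), Demand e Mq → (∀ j, 22 ≤ V j) →
  Monotone V → (∀ j, 40 * (j + 1) ≤ V j) → ∀ R : ℤ[X], 1 ≤ R.natDegree → ∀ j : ℕ,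
  ∃ c : ℝ, 0 < c ∧ ∀ k, e k = j →
    c * |aeval X.ξ (X.S k)| ≤ |aeval (aeval X.ξ R) (NR R (X.S k))|

/-- height of a composition -/
def StE : Prop := ∀ (R : ℤ[X]) (n : ℕ), ∃ K : ℝ, 1 ≤ K ∧ ∀ P : ℤ[X], P.natDegree ≤ n →
  (ht (P.comp R) : ℝ) ≤ K * ht P

/-- forward transfer -/
def StF : Prop := ∀ (R : ℤ[X]) (ξ : ℝ), 1 ≤ R.natDegree → aeval ξ (derivative R) ≠ 0 →
  ∀ (n : ℕ) (w : ℝ), -1 < w → w ∈ SSet ξ n → ∀ w' : ℝ, (w' + 1) * R.natDegree < w + 1 →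
  w' ∈ SSet (aeval ξ R) n

/-- height of the norm -/
def StG : Prop := ∀ (R : ℤ[X]) (n : ℕ), 1 ≤ R.natDegree → ∃ K : ℝ, 1 ≤ K ∧ ∀ S : ℤ[X], S ≠ 0 →
  S.natDegree ≤ n → (ht (NR R S) : ℝ) ≤ K * (ht S : ℝ) ^ R.natDegree

/-- backward transfer -/
def StH : Prop := ∀ (R : ℤ[X]) (ξ : ℝ), 1 ≤ R.natDegree → aeval ξ (derivative R) ≠ 0 →
  ∀ (n : ℕ) (w : ℝ), -1 < w → w ∈ SSet (aeval ξ R) n → ∀ w' : ℝ, w' < w →
  w' ∈ SSet ξ (R.natDegree * n)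

/-- upper bound for the exponents, for all real points -/
def StI : Prop := ∀ (ξ : ℝ) (n E : ℕ) (c : ℝ), 0 < c →
  (∀ P : ℤ[X], P ≠ 0 → P.natDegree ≤ n → c ≤ |aeval ξ P| * (ht P : ℝ) ^ E) →
  ∀ w ∈ SSet ξ n, w ≤ E

/-- Liouville: at an algebraic point the exponents are bounded -/
def StJ : Prop := ∀ ξ : ℝ, IsAlgebraic ℚ ξ → ∃ D : ℕ, ∀ (n : ℕ), ∀ w ∈ SSet ξ n, w ≤ D

end Pool.Agent.H16.PI
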