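import Pool.Agent.H16.PI.K

set_option autoImplicit false

namespace Pool.Agent.H16.PI

open Polynomial Pool.Agent Pool.Agent.Helper35

/-- the norm at `R(η)` is bounded by the value at `η` -/
def StL : Prop := ∀ (R : ℤ[X]) (n : ℕ) (η : ℝ), 1 ≤ R.natDegree → ∃ C : ℝ, 1 ≤ C ∧
  ∀ P : ℤ[X], P ≠ 0 → P.natDegree ≤ n →
    |aeval (aeval η R) (NR R P)| ≤ C * |aeval η P| * (ht P : ℝ) ^ (R.natDegree - 1)

/-- if `S` divides the norm of `P` then `P` divides `S(R(X))` over the rationals -/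
def StM : Prop := ∀ R S P : ℤ[X], 1 ≤ R.natDegree → IrrQ S → IrrQ P → S ∣ NR R P →
  P.map (Int.castRingHom ℚ) ∣ (S.comp R).map (Int.castRingHom ℚ)

/-- under valuation conditions, `P` has the full degree -/
def StN : Prop := ∀ (R S P : ℤ[X]) (p A : ℕ) (b : ℤ), 1 ≤ R.natDegree → IrrQ S → IrrQ P →
  S ∣ NR R P → p.Prime → ¬ ((p : ℤ) ∣ R.leadingCoeff) → ¬ ((p : ℤ) ∣ b) →
  S.leadingCoeff = (p : ℤ) ^ A * b → (∀ i, 1 ≤ i → (p : ℤ) ∣ S.coeff i) →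
  ¬ ((p : ℤ) ∣ S.coeff 0) → Nat.Coprime A R.natDegree →
  P.natDegree = R.natDegree * S.natDegree

end Pool.Agent.H16.PI
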