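import Pool.Agent.H16.PI.Base2
import Pool.Agent.H94.PI.EI
import Pool.Agent.H36.PI.C
import Pool.Agent.H18.PI.F
import Pool.Agent.H18.PI.H
import Pool.Agent.H83.PI.G

set_option autoImplicit false

namespace Pool.Agent.H16.PI

open Polynomial Filter

/-- The naive height of an integer polynomial: the maximum absolute value of its coefficients. -/
noncomputable def height (P : ℤ[X]) : ℕ := P.support.sup (fun i => (P.coeff i).natAbs)

/-- `P` is the minimal polynomial over `ℤ` of the real number `α`: irreducible, primitive,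
with positive leading coefficient, vanishing at `α`. -/
def IsMinPolyZ (P : ℤ[X]) (α : ℝ) : Prop :=
  Irreducible P ∧ P.IsPrimitive ∧ 0 < P.leadingCoeff ∧ aeval α P = 0

/-- Koksma's exponent `w_n^*(ξ)`, in the extended reals: the supremum of the real `w` for which
infinitely many real algebraic numbers `α` of degree at most `n` satisfy
`0 < |ξ - α| ≤ H(α)^(-w-1)`. -/
noncomputable def wKoksma (ξ : ℝ) (n : ℕ) : EReal :=
  sSup {W : EReal | ∃ w : ℝ, W = (w : EReal) ∧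
    {α : ℝ | ∃ P : ℤ[X], IsMinPolyZ P α ∧ P.natDegree ≤ n ∧ 0 < |ξ - α| ∧
      |ξ - α| ≤ (height P : ℝ) ^ (-w - 1)}.Infinite}

/-- `w^*(ξ) = limsup w_n^*(ξ) / n`; this is the *-type of an `S^*`-number. -/
noncomputable def wStar (ξ : ℝ) : EReal :=
  limsup (fun n : ℕ => wKoksma ξ n / (n : EReal)) atTop

/-- `S^*`-numbers. -/
def IsSStar (ξ : ℝ) : Prop := 0 < wStar ξ ∧ wStar ξ < ⊤

theorem wK_eq (ξ : ℝ) (n : ℕ) : wKoksma ξ n =
    sSup {W : EReal | ∃ w : ℝ, W = (w : EReal) ∧ w ∈ Pool.Agent.Helper35.SSet ξ n} := rfl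

theorem ratio_coe (a : ℝ) (n : ℕ) :
    (a : EReal) / (n : EReal) = ((a / (n : ℝ) : ℝ) : EReal) := by
  rw [EReal.coe_div]
  rfl

theorem n_nonneg (n : ℕ) : (0 : EReal) ≤ (n : EReal) := by exact_mod_cast Nat.zero_le n

theorem ratio_le (W : EReal) (a b : ℝ) (n : ℕ) (hn : 1 ≤ n) (h : W ≤ (a : EReal))
    (hab : a ≤ b * n) : W / (n : EReal) ≤ (b : EReal) := by
  have h1 : W / (n : EReal) ≤ (a : EReal) / (n : EReal) :=
    EReal.div_le_div_right_of_nonneg (n_nonneg n) h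
  refine h1.trans ?_
  rw [ratio_coe]
  have hn' : (0 : ℝ) < n := by exact_mod_cast hn
  have h2 : a / (n : ℝ) ≤ b := by
    rw [div_le_iff₀ hn']
    exact hab
  exact_mod_cast h2

theorem le_ratio (W : EReal) (a b : ℝ) (n : ℕ) (hn : 1 ≤ n) (h : (a : EReal) ≤ W)
    (hab : b * n ≤ a) : (b : EReal) ≤ W / (n : EReal) := by
  have h1 : (a : EReal) / (n : EReal) ≤ W / (n : EReal) :=
    EReal.div_le_div_right_of_nonneg (n_nonneg n) h
  refine le_trans ?_ h1
  rw [ratio_coe]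
  have hn' : (0 : ℝ) < n := by exact_mod_cast hn
  have h2 : b ≤ a / (n : ℝ) := by
    rw [le_div_iff₀ hn']
    exact hab
  exact_mod_cast h2

theorem sSup_le_of (S : Set ℝ) (a : ℝ) (h : ∀ w ∈ S, w ≤ a) :
    sSup {W : EReal | ∃ w : ℝ, W = (w : EReal) ∧ w ∈ S} ≤ (a : EReal) := by
  apply sSup_le
  rintro W ⟨w, rfl, hw⟩
  exact_mod_cast h w hw

/-- Upper bound for `w^*`. -/
theorem wStar_le (ξ : ℝ) (b K : ℝ)
    (h : ∀ n : ℕ, ∀ w ∈ Pool.Agent.Helper35.SSet ξ n, w ≤ b * n + K) :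
    wStar ξ ≤ (b : EReal) := by
  apply le_of_forall_gt_imp_ge_of_dense
  intro c hc
  obtain ⟨b', hb1, hb2⟩ := EReal.lt_iff_exists_real_btwn.mp hc
  have hbb : b < b' := by exact_mod_cast hb1
  refine le_trans ?_ hb2.le
  apply limsup_le_of_le
  · isBoundedDefault
  · obtain ⟨N, hN⟩ := exists_nat_gt (K / (b' - b))
    filter_upwards [eventually_ge_atTop (N + 1)] with n hn
    have hnN : (N : ℝ) ≤ n := by exact_mod_cast (by omega : N ≤ n)
    apply ratio_le _ (b * n + K) b' n (by omega)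
    · rw [wK_eq]
      exact sSup_le_of _ _ (h n)
    · have h1 : K / (b' - b) < n := lt_of_lt_of_le hN hnN
      rw [div_lt_iff₀ (by linarith)] at h1
      nlinarith

/-- Lower bound for `w^*`. -/
theorem le_wStar (ξ : ℝ) (b : ℝ)
    (h : ∀ b' : ℝ, b' < b → ∃ᶠ n : ℕ in atTop, b' * n ∈ Pool.Agent.Helper35.SSet ξ n) :
    (b : EReal) ≤ wStar ξ := by
  apply le_of_forall_lt_imp_le_of_dense
  intro c hc
  obtain ⟨b', hb1, hb2⟩ := EReal.lt_iff_exists_real_btwn.mp hc
  have hbb : b' < b := by exact_mod_cast hb2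
  refine le_trans hb1.le ?_
  apply le_limsup_of_frequently_le
  · refine ((h b' hbb).and_eventually (eventually_ge_atTop 1)).mono ?_
    rintro n ⟨hn, hn1⟩
    apply le_ratio _ (b' * n) b' n hn1 _ le_rfl
    rw [wK_eq]
    exact le_sSup ⟨b' * n, rfl, hn⟩
  · isBoundedDefault

/-- Extraction of good approximations. -/
theorem of_lt_wStar (ξ : ℝ) (b : ℝ) (h : (b : EReal) < wStar ξ) :
    ∃ᶠ n : ℕ in atTop, ∃ w ∈ Pool.Agent.Helper35.SSet ξ n, b * n < w := by
  have h1 : ∃ᶠ n : ℕ in atTop, (b : EReal) < wKoksma ξ n / (n : EReal) :=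
    frequently_lt_of_lt_limsup (by isBoundedDefault) h
  refine (h1.and_eventually (eventually_ge_atTop 1)).mono ?_
  rintro n ⟨hn, hn1⟩
  by_contra hcon
  push Not at hcon
  have h2 : wKoksma ξ n / (n : EReal) ≤ (b : EReal) := by
    apply ratio_le _ (b * n) b n hn1 _ le_rfl
    rw [wK_eq]
    exact sSup_le_of _ _ hcon
  exact absurd hn (not_lt.mpr h2)

end Pool.Agent.H16.PI
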