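import Pool.Agent.H16.PI.O
import Pool.Agent.H83.PI.L
import Pool.Agent.H18.PI.MN

set_option autoImplicit false

namespace Pool.Agent.H16.PI

open Polynomial Filter

theorem hE : StE := Pool.Agent.H94.PI.stE
theorem hI : StI := Pool.Agent.H94.PI.stI
theorem hC : StC := Pool.Agent.H36.PI.stC stA
theorem hG : StG := Pool.Agent.H83.PI.stG stA
theorem hF : StF := Pool.Agent.H18.PI.stF stA hG
theorem hH : StH := Pool.Agent.H18.PI.stH hE
theorem hD : StD := Pool.Agent.H51.PI.stD stA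
theorem hJ : StJ := Pool.Agent.H72.PI.stJ
theorem hL : StL := Pool.Agent.H83.PI.stL stA
theorem hMM : StM := Pool.Agent.H18.PI.stM stA
theorem hN : StN := Pool.Agent.H18.PI.stN stA stB hMM
theorem hO : StO := stO hG hL hMM hN hE

/-- If `R(ξ)` is an `S^*`-number then so is `ξ`. -/
theorem converseZ (ξ : ℝ) (R : ℤ[X]) (hm : 1 ≤ R.natDegree) (h : IsSStar (aeval ξ R)) :
    IsSStar ξ := by
  have htr : Transcendental ℚ ξ := by
    refine (transcendental_aeval_iff (f := R.map (algebraMap ℤ ℚ)).1 ?_).1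
    rw [aeval_map_algebraMap]
    exact transcendental_of_IsSStar hJ _ h
  have hξ := deriv_ne hm htr
  have hm0 : (0 : ℝ) < R.natDegree := by exact_mod_cast hm
  obtain ⟨h0, hT⟩ := h
  obtain ⟨r, hr⟩ : ∃ r : ℝ, wStar (aeval ξ R) = (r : EReal) :=
    ⟨(wStar (aeval ξ R)).toReal, (EReal.coe_toReal hT.ne (ne_bot_of_gt h0)).symm⟩
  have hr0 : 0 < r := by rw [hr] at h0; exact_mod_cast h0
  have hlow : ((r / 2 / R.natDegree : ℝ) : EReal) ≤ wStar ξ :=
    part_bwd hH hm ξ hξ (r / 2) (by linarith) (by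
      rw [hr]; exact_mod_cast (by linarith : r / 2 < r))
  refine ⟨lt_of_lt_of_le (by exact_mod_cast (by positivity : (0 : ℝ) < r / 2 / R.natDegree)) hlow,
    ?_⟩
  by_contra hc
  have htop : wStar ξ = ⊤ := not_lt_top_iff.mp hc
  have := part_fwd hF hm ξ hξ (R.natDegree * (r + 1)) (by positivity)
    (by rw [htop]; exact EReal.coe_lt_top _)
  rw [hr] at this
  have h2 : R.natDegree * (r + 1) / R.natDegree ≤ r := by exact_mod_cast this
  rw [mul_div_cancel_left₀ _ hm0.ne'] at h2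
  linarith

theorem converse (ξ : ℝ) (R : ℚ[X]) (hm : 1 ≤ R.natDegree) (h : IsSStar (aeval ξ R)) :
    IsSStar ξ := by
  obtain ⟨q, S, hq, hd, hv⟩ := exists_int R
  apply converseZ ξ S (by omega)
  rw [hv]
  have h1 := generalZ hF hH hJ (aeval ξ R) h (C q * X) (by rw [natDegree_C_mul_X q hq])
  have h2 : aeval (aeval ξ R) (C q * X : ℤ[X]) = (q : ℝ) * aeval ξ R := by simp
  rw [h2] at h1
  exact h1.1

/-- The examples, with rational coefficients for the images. -/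
theorem examplesQ (M B : ℕ) (hM : 1 ≤ M) (hB : 0 < B) (hdiv : ∀ m : ℕ, 1 ≤ m → m ≤ M → m ∣ B)
    (τ : ℝ) (hτ1 : 40 * (M : ℝ) ^ 2 ≤ τ) (hτ2 : (B : ℝ) + M ≤ τ) :
    ∃ ξ : ℝ, 0 < ξ ∧ ξ ≤ 1 ∧ IsSStar ξ ∧
    wStar ξ = (τ : EReal) ∧
    (∀ R : ℚ[X], 1 ≤ R.natDegree → R.natDegree ≤ M →
      wStar (aeval ξ R) = ((τ / R.natDegree : ℝ) : EReal)) ∧
    (∀ R : ℤ[X], 1 ≤ R.natDegree → R.natDegree ≤ M → ∀ η : ℝ, aeval η R = ξ →
      IsSStar η ∧ wStar η = ((τ / R.natDegree : ℝ) : EReal)) := by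
  obtain ⟨ξ, h1, h2, h3, h4, h5⟩ := examples stB hC hD hE hF hH hI hO M B hM hB hdiv τ hτ1 hτ2
  have hM1 : (1 : ℝ) ≤ M := by exact_mod_cast hM
  have hB0 : (0 : ℝ) < B := by exact_mod_cast hB
  have hτ0 : 0 < τ := by nlinarith
  have hS : ∀ x : ℝ, ∀ m : ℕ, 1 ≤ m → wStar x = ((τ / m : ℝ) : EReal) → IsSStar x := by
    intro x m hm hx
    have hm0 : (0 : ℝ) < m := by exact_mod_cast hm
    unfold IsSStar
    rw [hx]
    exact ⟨by exact_mod_cast (by positivity : (0 : ℝ) < τ / m), EReal.coe_lt_top _⟩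
  refine ⟨ξ, h1, h2, hS ξ 1 le_rfl (by rw [h4]; simp), h4, fun R hR hRM => ?_,
    fun R hR hRM η hη => ?_⟩
  · obtain ⟨q, S, hq, hd, hv⟩ := exists_int R
    have h6 := (h5 S (by omega) (by omega)).1
    rw [hv] at h6
    have h7 := hS _ _ (by omega) h6
    rw [scale hF hH (aeval ξ R) q hq h7.1, h6, hd]
  · have h6 := (h5 R hR hRM).2 η hη
    exact ⟨hS η _ hR h6, h6⟩

/-- A real preimage of `ξ + v`. -/
theorem pre_pos (S : ℤ[X]) (hS : 1 ≤ S.natDegree) (hl : 0 < S.leadingCoeff) (ξ : ℝ) :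
    ∃ (v : ℤ) (η : ℝ), aeval η S = ξ + v := by
  have he : ∀ x : ℝ, eval x (S.map (Int.castRingHom ℝ)) = aeval x S := by
    intro x; rw [eval_map]; rfl
  have hd : 0 < (S.map (Int.castRingHom ℝ)).degree := by
    apply natDegree_pos_iff_degree_pos.1
    rw [natDegree_map_eq_of_injective (RingHom.injective_int _)]
    omega
  have hlc : 0 ≤ (S.map (Int.castRingHom ℝ)).leadingCoeff := by
    rw [leadingCoeff_map_of_injective (RingHom.injective_int _)]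
    have : (0 : ℝ) < ((S.leadingCoeff : ℤ) : ℝ) := by exact_mod_cast hl
    exact this.le
  have ht := Polynomial.tendsto_atTop_of_leadingCoeff_nonneg _ hd hlc
  obtain ⟨v, hv⟩ : ∃ v : ℤ, v = ⌈aeval (0 : ℝ) S - ξ⌉ := ⟨_, rfl⟩
  have hv1 : aeval (0 : ℝ) S ≤ ξ + v := by
    have := Int.le_ceil (aeval (0 : ℝ) S - ξ)
    rw [← hv] at this
    linarith
  obtain ⟨x, hx1, hx2⟩ := ((ht.eventually_ge_atTop (ξ + v)).and (eventually_ge_atTop 0)).exists
  rw [he] at hx1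
  have hcont : ContinuousOn (fun y : ℝ => aeval y S) (Set.Icc 0 x) :=
    (Polynomial.continuous_aeval S).continuousOn
  obtain ⟨η, _, hη⟩ := intermediate_value_Icc hx2 hcont ⟨hv1, hx1⟩
  exact ⟨v, η, hη⟩

/-- A real preimage of `± ξ + v`. -/
theorem exists_pre (S : ℤ[X]) (hS : 1 ≤ S.natDegree) (ξ : ℝ) :
    ∃ (T : ℤ[X]) (s v : ℤ) (η : ℝ), T.natDegree = S.natDegree ∧ s ≠ 0 ∧ aeval η T = ξ ∧
      S = C s * T + C v := by
  rcases lt_trichotomy S.leadingCoeff 0 with hl | hl | hl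
  · obtain ⟨v, η, hη⟩ := pre_pos (-S) (by rw [natDegree_neg]; exact hS)
      (by rw [leadingCoeff_neg]; omega) ξ
    refine ⟨-S - C v, -1, -v, η, ?_, by norm_num, ?_, ?_⟩
    · rw [natDegree_sub_C, natDegree_neg]
    · rw [map_sub, hη, aeval_C]; simp
    · rw [C_neg, C_neg, C_1]; ring
  · rw [leadingCoeff_eq_zero] at hl
    rw [hl, natDegree_zero] at hS
    omega
  · obtain ⟨v, η, hη⟩ := pre_pos S hS hl ξ
    refine ⟨S - C v, 1, v, η, ?_, by norm_num, ?_, ?_⟩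
    · rw [natDegree_sub_C]
    · rw [map_sub, hη, aeval_C]; simp
    · rw [C_1]; ring

/-- Both inequalities are attained for every polynomial. -/
theorem attained (R : ℚ[X]) (hR : 1 ≤ R.natDegree) (τ : ℝ)
    (hτ1 : 40 * (R.natDegree : ℝ) ^ 2 ≤ τ)
    (hτ2 : (((Finset.Icc 1 R.natDegree).lcm id : ℕ) : ℝ) + R.natDegree ≤ τ) :
    (∃ ξ : ℝ, IsSStar ξ ∧ wStar ξ = (τ : EReal) ∧
      wStar (aeval ξ R) = ((τ / R.natDegree : ℝ) : EReal)) ∧
    (∃ η : ℝ, IsSStar η ∧ wStar η = ((τ / R.natDegree : ℝ) : EReal) ∧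
      wStar (aeval η R) = (τ : EReal)) := by
  have hlcm : 0 < (Finset.Icc 1 R.natDegree).lcm id := by
    apply Nat.pos_of_ne_zero
    intro h0
    rw [Finset.lcm_eq_zero_iff] at h0
    simp at h0
  obtain ⟨ξ, h1, h2, h3, h4, h5, h6⟩ := examplesQ R.natDegree ((Finset.Icc 1 R.natDegree).lcm id)
    hR hlcm (fun m hm hm' => Finset.dvd_lcm (f := id) (Finset.mem_Icc.2 ⟨hm, hm'⟩)) τ hτ1 hτ2
  refine ⟨⟨ξ, h3, h4, h5 R hR le_rfl⟩, ?_⟩
  obtain ⟨q, S, hq, hd, hv⟩ := exists_int R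
  obtain ⟨T, s, v, η, hTd, hs, hη, hST⟩ := exists_pre S (by omega) ξ
  obtain ⟨h7, h8⟩ := h6 T (by omega) (by omega) η hη
  rw [hTd, hd] at h8
  refine ⟨η, h7, h8, ?_⟩
  -- `q R(η) = s ξ + v`
  have e1 : (q : ℝ) * aeval η R = aeval ξ (C (s : ℚ) * X + C (v : ℚ) : ℚ[X]) := by
    rw [← hv, hST, map_add, map_mul, hη]
    simp
  have hdeg1 : (C (s : ℚ) * X + C (v : ℚ) : ℚ[X]).natDegree = 1 :=
    natDegree_linear (by exact_mod_cast hs)
  have e2 := h5 (C (s : ℚ) * X + C (v : ℚ)) (by rw [hdeg1]) (by rw [hdeg1]; exact hR)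
  rw [hdeg1, Nat.cast_one, div_one, ← e1] at e2
  have h0 : 0 < wStar ((q : ℝ) * aeval η R) := by rw [e2, ← h4]; exact h3.1
  rw [scale hF hH (aeval η R) q hq h0, e2]

end Pool.Agent.H16.PI
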