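import Pool.Agent.H16.PI.O3
import Pool.Agent.H16.PI.Fin

set_option autoImplicit false

namespace Pool.Agent.H16.PI

open Polynomial Filter

/-- The examples. -/
theorem examples2 (hB' : StB) (hC' : StC) (hD' : StD) (hE' : StE) (hF' : StF) (hH' : StH)
    (hI' : StI)
    (M B : ℕ) (hM : 1 ≤ M) (hB : 0 < B) (hdiv : ∀ m : ℕ, 1 ≤ m → m ≤ M → m ∣ B)
    (τ : ℝ) (hτ1 : 40 * (M : ℝ) ^ 2 ≤ τ) (hτ2 : (B : ℝ) + M ≤ τ) : ∃ ξ : ℝ, 0 < ξ ∧ ξ ≤ 1 ∧ Transcendental ℚ ξ ∧
    wStar ξ = (τ : EReal) ∧ ∀ R : ℤ[X], 1 ≤ R.natDegree → R.natDegree ≤ M →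
      wStar (aeval ξ R) = ((τ / R.natDegree : ℝ) : EReal) ∧
      ∀ q : ℤ, q ≠ 0 → ∀ η : ℝ, aeval η R = (q : ℝ) * ξ →
        wStar η = ((τ / R.natDegree : ℝ) : EReal) := by
  have hB0 : (0 : ℝ) < B := by exact_mod_cast hB
  have hB1 : (1 : ℝ) ≤ B := by exact_mod_cast hB
  have hM1 : (1 : ℝ) ≤ M := by exact_mod_cast hM
  have hM2 : (1 : ℝ) ≤ (M : ℝ) ^ 2 := one_le_pow₀ hM1
  have hτ0 : 0 < τ := by linarith
  have hτB : (B : ℝ) ≤ τ := by linarith
  obtain ⟨e, he⟩ : ∃ e : ℕ → ℕ, e = fun k =>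
      if B ∣ k + 2 then B * (Nat.unpair ((k + 2) / B)).1 else 0 := ⟨_, rfl⟩
  obtain ⟨U, hU⟩ : ∃ U : ℕ → ℕ, ∀ j, U j = ⌊τ * ((j : ℝ) + 2) / B⌋₊ := ⟨_, fun _ => rfl⟩
  obtain ⟨V, hVU⟩ : ∃ V : ℕ → ℕ, ∀ j, V j = B * U j := ⟨fun j => B * U j, fun _ => rfl⟩
  obtain ⟨Mq, hMq⟩ : ∃ Mq : ℕ → ℕ, Pool.Agent.Helper35.Demand e Mq := ⟨_, fun k => le_rfl⟩
  have hUup : ∀ j : ℕ, (U j : ℝ) ≤ τ * ((j : ℝ) + 2) / B := by
    intro j
    rw [hU]
    exact Nat.floor_le (by positivity)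
  have hUlo : ∀ j : ℕ, τ * ((j : ℝ) + 2) / B - 1 < U j := by
    intro j
    rw [hU]
    exact Nat.sub_one_lt_floor _
  have hVup : ∀ j : ℕ, (V j : ℝ) ≤ τ * ((j : ℝ) + 2) := by
    intro j
    have := hUup j
    rw [le_div_iff₀ hB0] at this
    rw [hVU]; push_cast; linarith
  have hVlo : ∀ j : ℕ, τ * ((j : ℝ) + 2) - B < V j := by
    intro j
    have := hUlo j
    rw [sub_lt_iff_lt_add, div_lt_iff₀ hB0] at this
    rw [hVU]; push_cast; linarith
  have hVbig : ∀ j : ℕ, 40 * M ^ 2 * (j + 1) + M ≤ V j := by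
    intro j
    have h1 := hVlo j
    have hj : (0 : ℝ) ≤ j := Nat.cast_nonneg j
    have h2 : (40 * (M : ℝ) ^ 2 * ((j : ℝ) + 1) + M) < (V j : ℝ) := by nlinarith
    have h3 : ((40 * M ^ 2 * (j + 1) + M : ℕ) : ℝ) < (V j : ℝ) := by push_cast; exact h2
    exact (by exact_mod_cast h3 : 40 * M ^ 2 * (j + 1) + M < V j).le
  have hM2' : 1 ≤ M ^ 2 := Nat.one_le_pow _ _ hM
  have hUmono : StrictMono U := by
    apply strictMono_nat_of_lt_succ
    intro j
    have h1 := hUup j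
    have h2 := hUlo (j + 1)
    push_cast at h2
    have h4 : τ * ((j : ℝ) + 1 + 2) / B = τ * ((j : ℝ) + 2) / B + τ / B := by ring
    have h5 : 1 ≤ τ / B := by rw [le_div_iff₀ hB0]; linarith
    have h3 : (U j : ℝ) < U (j + 1) := by linarith
    exact_mod_cast h3
  have hVmono : Monotone V := fun a b hab => by
    rw [hVU, hVU]; exact Nat.mul_le_mul_left _ (hUmono.monotone hab)
  have hV40 : ∀ j, 40 * (j + 1) ≤ V j := fun j => by
    have h1 := hVbig j
    have h2 : 40 * 1 * (j + 1) ≤ 40 * M ^ 2 * (j + 1) := by gcongr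
    omega
  have hV : ∀ j, 22 ≤ V j := fun j => by have := hV40 j; omega
  have hBe : ∀ k, B ∣ e k := by
    intro k
    rw [he]
    by_cases h : B ∣ k + 2
    · simp only [h, if_true]; exact dvd_mul_right _ _
    · simp only [h, if_false]; exact dvd_zero _
  have hcopB : ∀ k m, 1 ≤ m → m ≤ M → Nat.Coprime (e k + 1) m := by
    intro k m h1 h2
    have h3 : m ∣ e k := (hdiv m h1 h2).trans (hBe k)
    obtain ⟨t, ht⟩ := h3
    rw [ht]
    simp
  have hinf : ∀ i K : ℕ, ∃ k, K ≤ k ∧ e k = B * i := by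
    intro i K
    have h1 := Nat.right_le_pair i (K + 2)
    have h2 : Nat.pair i (K + 2) ≤ B * Nat.pair i (K + 2) := Nat.le_mul_of_pos_left _ hB
    refine ⟨B * Nat.pair i (K + 2) - 2, by omega, ?_⟩
    have h3 : B * Nat.pair i (K + 2) - 2 + 2 = B * Nat.pair i (K + 2) := by omega
    rw [he]
    simp only [h3, dvd_mul_right, if_true, Nat.mul_div_cancel_left _ hB, Nat.unpair_pair]
  obtain ⟨X⟩ := Pool.Agent.Helper35.sdata_exists e V Mq hV
  have h0 := X.ξ0
  have h1 := X.ξ1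
  have hne := Pool.Agent.W72.ne_zero_at X hMq hV hVmono hV40
  have hξ0 : X.ξ ≠ 0 := by
    have := hne Polynomial.X X_ne_zero
    rwa [aeval_X] at this
  have hξpos : 0 < X.ξ := lt_of_le_of_ne h0 hξ0.symm
  -- the value at `ξ`
  have hA1 : wStar X.ξ ≤ (τ : EReal) := by
    apply wStar_le X.ξ τ (2 * τ)
    intro n w hw
    obtain ⟨c, hc, hcc⟩ := X.bound_all hMq hV n (V n) (hV40 n) (fun j hj => hVmono hj.le)
    have h2 := Pool.Agent.Helper35.SSet_le X.ξ h0 h1 n _ c hc hcc w hw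
    have h3 := hVup n
    linarith
  have hA2 : (τ : EReal) ≤ wStar X.ξ := by
    apply le_wStar
    intro b hb
    rw [frequently_atTop]
    intro N
    obtain ⟨N', hN'⟩ := exists_nat_gt (((B : ℝ) + 1 + |b|) / (τ - b))
    have hpos : 0 < τ - b := by linarith
    rw [div_lt_iff₀ hpos] at hN'
    have hBN : N + N' ≤ B * (N + N') := Nat.le_mul_of_pos_left _ hB
    refine ⟨B * (N + N') + 1, by omega, ?_⟩
    apply X.mem_SSet hMq hV (B * (N + N')) (hinf (N + N'))
    have h2 := hVlo (B * (N + N'))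
    have h3 : (N' : ℝ) ≤ ((B * (N + N') : ℕ) : ℝ) := by exact_mod_cast (by omega)
    obtain ⟨q, hq⟩ : ∃ q : ℝ, q = ((B * (N + N') : ℕ) : ℝ) := ⟨_, rfl⟩
    rw [← hq] at h2 h3
    have h4 : ((B * (N + N') + 1 : ℕ) : ℝ) = q + 1 := by rw [hq]; push_cast; ring
    rw [h4]
    have h5 : b ≤ |b| := le_abs_self b
    nlinarith [mul_le_mul_of_nonneg_right h3 hpos.le]
  have hA : wStar X.ξ = (τ : EReal) := le_antisymm hA1 hA2
  have hξtr : Transcendental ℚ X.ξ := by
    intro halg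
    rw [← IsFractionRing.isAlgebraic_iff ℤ ℚ ℝ] at halg
    obtain ⟨P, hP, h0'⟩ := halg
    exact hne P hP h0'
  refine ⟨X.ξ, hξpos, h1, hξtr, hA, fun R hm hmM => ?_⟩
  obtain ⟨m, hmd⟩ : ∃ m, m = R.natDegree := ⟨_, rfl⟩
  have hR1 : 1 ≤ R.natDegree := hm
  rw [← hmd] at hm hmM ⊢
  have hm0 : (0 : ℝ) < m := by exact_mod_cast hm
  have hmM2 : m ^ 2 ≤ M ^ 2 := Nat.pow_le_pow_left hmM 2
  have hmm : m ≤ m ^ 2 := Nat.le_self_pow (by norm_num) m
  obtain ⟨D, hD⟩ := hdiv m hm hmM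
  have hD0 : 0 < D := by
    rcases Nat.eq_zero_or_pos D with h | h
    · rw [h, mul_zero] at hD; omega
    · exact h
  refine ⟨le_antisymm ?_ (key τ hτ0 m hm _ fun b hb hbτ => ?_), fun q hq η hη => le_antisymm ?_
    (key τ hτ0 m hm _ fun b hb hbτ => ?_)⟩
  · -- the value at `R(ξ)`
    apply wStar_le (aeval X.ξ R) (τ / m) (2 * τ / m)
    intro n w hw
    have hfac : ∀ k, Nat.Coprime (e k + 1) R.natDegree.factorial := by
      intro k
      rw [← hmd, ← Finset.prod_range_add_one_eq_factorial]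
      apply Nat.Coprime.prod_right
      intro i hi
      rw [Finset.mem_range] at hi
      exact hcopB k (i + 1) (by omega) (by omega)
    have hVD : ∀ j, V j = m * (D * U j) := fun j => by rw [hVU, hD, mul_assoc]
    obtain ⟨c, hc, hcc⟩ := bound_R X hB' hC' hD' hE' R hR1 hfac hMq hVmono hV hV40
      (fun j => D * U j) (by rw [← hmd]; exact hVD)
      (fun a b hab => Nat.mul_lt_mul_of_pos_left (hUmono hab) hD0)
      (fun j => by
        rw [← hmd]
        apply Nat.le_of_mul_le_mul_left _ (by omega : 0 < m)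
        rw [← hVD]
        refine le_trans ?_ (hVbig j)
        calc m * (40 * (m * j + 1) + 1) = 40 * m ^ 2 * j + 40 * m + m := by ring
          _ ≤ 40 * M ^ 2 * j + 40 * M ^ 2 + M := by
              have : m ≤ M ^ 2 := hmm.trans hmM2
              gcongr
          _ = 40 * M ^ 2 * (j + 1) + M := by ring) n
    have h2 := hI' (aeval X.ξ R) n _ c hc hcc w hw
    have h3 := hVup n
    rw [hVD] at h3
    push_cast at h2 h3
    have h4 : τ / m * n + 2 * τ / m = τ * ((n : ℝ) + 2) / m := by ring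
    rw [h4, le_div_iff₀ hm0]
    nlinarith
  · have := part_fwd hF' hR1 X.ξ (deriv_ne hR1 hξtr) b hb (by rw [hA]; exact_mod_cast hbτ)
    rw [← hmd] at this
    exact this
  · -- the value at the preimages
    have hEA : ∀ k, e k = 0 ∨ Nat.Coprime (Pool.Agent.Helper35.EA k * (e k + 1)) m := by
      intro k
      by_cases h : B ∣ k + 2
      · right
        apply Nat.Coprime.mul_left _ (hcopB k m hm hmM)
        obtain ⟨t, ht⟩ := (hdiv m hm hmM).trans h
        have h5 : Pool.Agent.Helper35.EA k = m * (4 * t * (k + 2)) + 1 := by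
          unfold Pool.Agent.Helper35.EA
          rw [ht]; ring
        rw [h5]
        simp
      · left
        rw [he]
        simp only [h, if_false]
    have hVpre : ∀ j, 40 * R.natDegree * (R.natDegree * (j + 1)) + R.natDegree ≤ V j := by
      intro j
      rw [← hmd]
      refine le_trans ?_ (hVbig j)
      calc 40 * m * (m * (j + 1)) + m = 40 * m ^ 2 * (j + 1) + m := by ring
        _ ≤ 40 * M ^ 2 * (j + 1) + M := by gcongr
    obtain ⟨C, hC⟩ : ∃ C : ℕ, C = R.natDegree * (V 0 + 1) + 1 := ⟨_, rfl⟩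
    apply wStar_le η (τ / m) (2 * τ + 1 + C)
    intro n w hw
    obtain ⟨c, hc, hcc⟩ := bound_pre_q X hG hL hMM hN hE' hMq hVmono hV hV40 R hR1
      (by rw [← hmd]; exact hEA) hVpre q hq η hη n
    rw [← hC] at hcc
    have h2 := hI' η n _ c hc hcc w hw
    rw [← hmd] at h2
    have h3 := hVup (n / m)
    have h4 : ((n / m : ℕ) : ℝ) ≤ (n : ℝ) / m := Nat.cast_div_le
    push_cast at h2
    have h5 : τ * (((n / m : ℕ) : ℝ) + 2) ≤ τ * ((n : ℝ) / m + 2) := by gcongr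
    have h6 : τ * ((n : ℝ) / m + 2) = τ / m * n + 2 * τ := by ring
    linarith
  · have hq0 : (q : ℝ) ≠ 0 := by exact_mod_cast hq
    have hqξtr : Transcendental ℚ ((q : ℝ) * X.ξ) := by
      intro halg
      apply hξtr
      have h2 : X.ξ = (q : ℝ)⁻¹ * ((q : ℝ) * X.ξ) := by field_simp
      rw [h2]
      exact (isAlgebraic_intCast q).inv.mul halg
    have hηtr : Transcendental ℚ η := by
      refine (transcendental_aeval_iff (f := R.map (algebraMap ℤ ℚ)).1 ?_).1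
      rw [aeval_map_algebraMap, hη]
      exact hqξtr
    have hsc : wStar X.ξ = wStar ((q : ℝ) * X.ξ) := by
      have h1 : wStar ((q : ℝ) * X.ξ) = wStar X.ξ := by
        have h2 := (general hF' hH' hJ X.ξ (by
          unfold IsSStar
          rw [hA]
          exact ⟨by exact_mod_cast hτ0, EReal.coe_lt_top _⟩) (C (q : ℚ) * Polynomial.X) (by
            rw [natDegree_C_mul_X (q : ℚ) (by exact_mod_cast hq)])).1
        have h3 : aeval X.ξ (C (q : ℚ) * Polynomial.X : ℚ[X]) = (q : ℝ) * X.ξ := by simp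
        rw [h3] at h2
        exact (scale hF' hH' X.ξ q hq h2.1).symm
      exact h1.symm
    have := part_bwd hH' hR1 η (deriv_ne hR1 hηtr) b hb (by
      rw [hη, ← hsc, hA]; exact_mod_cast hbτ)
    rw [← hmd] at this
    exact this

/-- The examples, rational coefficients, in every interval. -/
theorem examplesQ2 (M B : ℕ) (hM : 1 ≤ M) (hB : 0 < B) (hdiv : ∀ m : ℕ, 1 ≤ m → m ≤ M → m ∣ B)
    (τ : ℝ) (hτ1 : 40 * (M : ℝ) ^ 2 ≤ τ) (hτ2 : (B : ℝ) + M ≤ τ) (a b : ℝ) (hab : a < b) :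
    ∃ ξ : ℝ, a < ξ ∧ ξ < b ∧ IsSStar ξ ∧ wStar ξ = (τ : EReal) ∧
    ∀ R : ℚ[X], 1 ≤ R.natDegree → R.natDegree ≤ M →
      wStar (aeval ξ R) = ((τ / R.natDegree : ℝ) : EReal) ∧
      ∀ η : ℝ, aeval η R = ξ → IsSStar η ∧ wStar η = ((τ / R.natDegree : ℝ) : EReal) := by
  obtain ⟨ξ, h1, h2, h3, h4, h5⟩ := examples2 stB hC hD hE hF hH hI M B hM hB hdiv τ hτ1 hτ2
  have hM1 : (1 : ℝ) ≤ M := by exact_mod_cast hM
  have hB0 : (0 : ℝ) < B := by exact_mod_cast hB
  have hτ0 : 0 < τ := by nlinarith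
  have hS : ∀ x : ℝ, ∀ m : ℕ, 1 ≤ m → wStar x = ((τ / m : ℝ) : EReal) → IsSStar x := by
    intro x m hm hx
    have hm0 : (0 : ℝ) < m := by exact_mod_cast hm
    unfold IsSStar
    rw [hx]
    exact ⟨by exact_mod_cast (by positivity : (0 : ℝ) < τ / m), EReal.coe_lt_top _⟩
  -- the point itself, rational coefficients
  have himg : ∀ R : ℚ[X], 1 ≤ R.natDegree → R.natDegree ≤ M →
      wStar (aeval ξ R) = ((τ / R.natDegree : ℝ) : EReal) := by
    intro R hR hRM
    obtain ⟨q, S, hq, hd, hv⟩ := exists_int R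
    have h6 := (h5 S (by omega) (by omega)).1
    rw [hv] at h6
    have h7 := hS _ _ (by omega) h6
    rw [scale hF hH (aeval ξ R) q hq h7.1, h6, hd]
  have hpre : ∀ R : ℚ[X], 1 ≤ R.natDegree → R.natDegree ≤ M → ∀ η : ℝ, aeval η R = ξ →
      IsSStar η ∧ wStar η = ((τ / R.natDegree : ℝ) : EReal) := by
    intro R hR hRM η hη
    obtain ⟨q, S, hq, hd, hv⟩ := exists_int R
    have h6 := (h5 S (by omega) (by omega)).2 q hq η (by rw [hv, hη])
    rw [hd] at h6
    exact ⟨hS η _ hR h6, h6⟩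
  obtain ⟨v, hv1, hv2⟩ := exists_rat_btwn (show a - ξ < b - ξ by linarith)
  have hX1 : (X + C v : ℚ[X]).natDegree = 1 := natDegree_X_add_C v
  have hXv : aeval ξ (X + C v : ℚ[X]) = ξ + v := by simp
  have hξv : wStar (ξ + v) = (τ : EReal) := by
    have := himg (X + C v) (by rw [hX1]) (by rw [hX1]; exact hM)
    rw [hXv, hX1] at this
    simpa using this
  refine ⟨ξ + v, by linarith, by linarith, hS _ 1 le_rfl (by rw [hξv]; simp), hξv,
    fun R hR hRM => ⟨?_, fun η hη => ?_⟩⟩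
  · have hd : (R.comp (X + C v)).natDegree = R.natDegree := by
      rw [natDegree_comp, hX1, mul_one]
    have := himg (R.comp (X + C v)) (by omega) (by omega)
    rw [aeval_comp, hXv, hd] at this
    exact this
  · have hd : (R - C v).natDegree = R.natDegree := natDegree_sub_C
    have := hpre (R - C v) (by omega) (by omega) η (by
      rw [map_sub, hη, aeval_C]
      simp)
    rw [hd] at this
    exact this

end Pool.Agent.H16.PI
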