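import Pool.Agent.H16.PI.Defs

set_option autoImplicit false

namespace Pool.Agent.H16.PI

open Polynomial Filter

lemma le_of_pos {x y : EReal} (hy : 0 < y) (h : ∀ b : ℝ, 0 < b → (b : EReal) < x → (b : EReal) ≤ y) :
    x ≤ y := by
  apply le_of_forall_lt_imp_le_of_dense
  intro c hc
  obtain ⟨d, hd1, hd2⟩ := EReal.lt_iff_exists_real_btwn.mp hc
  by_cases hd : 0 < d
  · exact hd1.le.trans (h d hd hd2)
  · have h0 : (d : EReal) ≤ 0 := by exact_mod_cast not_lt.1 hd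
    exact hd1.le.trans (h0.trans hy.le)

/-- `w^*(R(ξ)) ≥ w^*(ξ) / deg R`. -/
theorem part_fwd (hF : StF) {R : ℤ[X]} (hR : 1 ≤ R.natDegree) (ξ : ℝ)
    (hξ : aeval ξ (derivative R) ≠ 0) (b : ℝ) (hb : 0 < b)
    (h : (b : EReal) < wStar ξ) : ((b / R.natDegree : ℝ) : EReal) ≤ wStar (aeval ξ R) := by
  have hm0 : (0 : ℝ) < R.natDegree := by exact_mod_cast hR
  apply le_wStar
  intro b' hb'
  rw [lt_div_iff₀ hm0] at hb'
  obtain ⟨N, hN⟩ := exists_nat_gt ((R.natDegree : ℝ) / (b - b' * R.natDegree))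
  refine ((of_lt_wStar ξ b h).and_eventually (eventually_ge_atTop N)).mono ?_
  rintro n ⟨⟨w, hw, hbw⟩, hn⟩
  have hnN : (N : ℝ) ≤ n := by exact_mod_cast hn
  have h1 : (R.natDegree : ℝ) / (b - b' * R.natDegree) < n := lt_of_lt_of_le hN hnN
  have hpos : 0 < b - b' * R.natDegree := by linarith
  rw [div_lt_iff₀ hpos] at h1
  have hn0 : (0 : ℝ) ≤ n := Nat.cast_nonneg n
  have hbn : 0 ≤ b * n := by positivity
  exact hF R ξ hR hξ n w (by linarith) hw (b' * n) (by nlinarith)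

/-- `w^*(ξ) ≥ w^*(R(ξ)) / deg R`. -/
theorem part_bwd (hH : StH) {R : ℤ[X]} (hR : 1 ≤ R.natDegree) (ξ : ℝ)
    (hξ : aeval ξ (derivative R) ≠ 0) (b : ℝ) (hb : 0 < b)
    (h : (b : EReal) < wStar (aeval ξ R)) : ((b / R.natDegree : ℝ) : EReal) ≤ wStar ξ := by
  have hm0 : (0 : ℝ) < R.natDegree := by exact_mod_cast hR
  apply le_wStar
  intro b' hb'
  rw [lt_div_iff₀ hm0] at hb'
  have h1 := of_lt_wStar (aeval ξ R) b h
  rw [frequently_atTop] at h1 ⊢
  intro N
  obtain ⟨n, hn, w, hw, hbw⟩ := h1 N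
  refine ⟨R.natDegree * n, le_trans hn (Nat.le_mul_of_pos_left n (by omega)), ?_⟩
  have hn0 : (0 : ℝ) ≤ n := Nat.cast_nonneg n
  have hbn : 0 ≤ b * n := by positivity
  refine hH R ξ hR hξ n w (by linarith) hw (b' * ((R.natDegree * n : ℕ) : ℝ)) ?_
  push_cast
  nlinarith

theorem mul_coe (m : ℕ) (r : ℝ) : (m : EReal) * (r : EReal) = ((m * r : ℝ) : EReal) := by
  push_cast; rfl

/-- `S^*`-numbers are transcendental. -/
theorem transcendental_of_IsSStar (hJ : StJ) (ξ : ℝ) (h : IsSStar ξ) : Transcendental ℚ ξ := by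
  intro halg
  obtain ⟨D, hD⟩ := hJ ξ halg
  have h1 : wStar ξ ≤ ((0 : ℝ) : EReal) := by
    apply wStar_le ξ 0 D
    intro n w hw
    have := hD n w hw
    linarith
  exact absurd h.1 (not_lt.2 h1)

lemma deriv_ne {R : ℤ[X]} (hR : 1 ≤ R.natDegree) {ξ : ℝ} (hξ : Transcendental ℚ ξ) :
    aeval ξ (derivative R) ≠ 0 := by
  intro h0
  have h1 : derivative R ≠ 0 := by
    intro h
    have := derivative_eq_zero.1 h
    omega
  apply hξ
  rw [← IsFractionRing.isAlgebraic_iff ℤ ℚ ℝ]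
  exact ⟨_, h1, h0⟩

/-- The general inequalities, integer coefficients. -/
theorem generalZ (hF : StF) (hH : StH) (hJ : StJ) (ξ : ℝ) (h : IsSStar ξ) (R : ℤ[X])
    (hm : 1 ≤ R.natDegree) :
    IsSStar (aeval ξ R) ∧ wStar ξ ≤ R.natDegree * wStar (aeval ξ R) ∧
      wStar (aeval ξ R) ≤ R.natDegree * wStar ξ := by
  have hξ := deriv_ne hm (transcendental_of_IsSStar hJ ξ h)
  obtain ⟨m, hmd⟩ : ∃ m, m = R.natDegree := ⟨_, rfl⟩
  have hm0 : (0 : ℝ) < R.natDegree := by exact_mod_cast hm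
  obtain ⟨h0, hT⟩ := h
  obtain ⟨r, hr⟩ : ∃ r : ℝ, wStar ξ = (r : EReal) :=
    ⟨(wStar ξ).toReal, (EReal.coe_toReal hT.ne (ne_bot_of_gt h0)).symm⟩
  have hr0 : 0 < r := by rw [hr] at h0; exact_mod_cast h0
  have hlow : ((r / 2 / R.natDegree : ℝ) : EReal) ≤ wStar (aeval ξ R) :=
    part_fwd hF hm ξ hξ (r / 2) (by linarith) (by
      rw [hr]; exact_mod_cast (by linarith : r / 2 < r))
  have h0' : 0 < wStar (aeval ξ R) :=
    lt_of_lt_of_le (by exact_mod_cast (by positivity : (0 : ℝ) < r / 2 / R.natDegree)) hlow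
  have hT' : wStar (aeval ξ R) < ⊤ := by
    by_contra hc
    have htop : wStar (aeval ξ R) = ⊤ := not_lt_top_iff.mp hc
    have := part_bwd hH hm ξ hξ (R.natDegree * (r + 1)) (by positivity)
      (by rw [htop]; exact EReal.coe_lt_top _)
    rw [hr] at this
    have h2 : R.natDegree * (r + 1) / R.natDegree ≤ r := by exact_mod_cast this
    rw [mul_div_cancel_left₀ _ hm0.ne'] at h2
    linarith
  obtain ⟨s, hs⟩ : ∃ s : ℝ, wStar (aeval ξ R) = (s : EReal) :=
    ⟨(wStar (aeval ξ R)).toReal, (EReal.coe_toReal hT'.ne (ne_bot_of_gt h0')).symm⟩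
  have hs0 : 0 < s := by rw [hs] at h0'; exact_mod_cast h0'
  refine ⟨⟨h0', hT'⟩, ?_, ?_⟩
  · rw [hr, hs, mul_coe]
    by_contra hc
    have hc' : R.natDegree * s < r := by
      rw [not_le] at hc
      exact_mod_cast hc
    have h1 : 0 < R.natDegree * s := by positivity
    have := part_fwd hF hm ξ hξ ((R.natDegree * s + r) / 2) (by linarith) (by
      rw [hr]; exact_mod_cast (by linarith : (R.natDegree * s + r) / 2 < r))
    rw [hs] at this
    have h2 : (R.natDegree * s + r) / 2 / R.natDegree ≤ s := by exact_mod_cast this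
    rw [div_le_iff₀ hm0] at h2
    linarith
  · rw [hr, hs, mul_coe]
    by_contra hc
    have hc' : R.natDegree * r < s := by
      rw [not_le] at hc
      exact_mod_cast hc
    have h1 : 0 < R.natDegree * r := by positivity
    have := part_bwd hH hm ξ hξ ((R.natDegree * r + s) / 2) (by linarith) (by
      rw [hs]; exact_mod_cast (by linarith : (R.natDegree * r + s) / 2 < s))
    rw [hr] at this
    have h2 : (R.natDegree * r + s) / 2 / R.natDegree ≤ r := by exact_mod_cast this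
    rw [div_le_iff₀ hm0] at h2
    linarith

/-- Multiplication by a non-zero integer does not change `w^*`. -/
theorem scale (hF : StF) (hH : StH) (y : ℝ) (q : ℤ) (hq : q ≠ 0) (h : 0 < wStar ((q : ℝ) * y)) :
    wStar y = wStar ((q : ℝ) * y) := by
  have hd : (C q * X : ℤ[X]).natDegree = 1 := natDegree_C_mul_X q hq
  have hv : aeval y (C q * X : ℤ[X]) = (q : ℝ) * y := by simp
  have hder : aeval y (derivative (C q * X : ℤ[X])) ≠ 0 := by
    simp [hq]
  have hf := part_fwd hF (R := C q * X) (by rw [hd]) y hder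
  have hb := part_bwd hH (R := C q * X) (by rw [hd]) y hder
  rw [hv, hd] at hf
  rw [hv, hd] at hb
  simp only [Nat.cast_one, div_one] at hf hb
  have hpos : 0 < wStar y := by
    obtain ⟨b, hb1, hb2⟩ := EReal.lt_iff_exists_real_btwn.mp h
    exact lt_of_lt_of_le hb1 (hb b (by exact_mod_cast hb1) hb2)
  exact le_antisymm (le_of_pos h fun b h1 h2 => hf b h1 h2) (le_of_pos hpos fun b h1 h2 => hb b h1 h2)

/-- Clearing denominators. -/
theorem exists_int (R : ℚ[X]) : ∃ (q : ℤ) (S : ℤ[X]), q ≠ 0 ∧ S.natDegree = R.natDegree ∧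
    ∀ ξ : ℝ, aeval ξ S = (q : ℝ) * aeval ξ R := by
  obtain ⟨q, hq, h⟩ := IsLocalization.integerNormalization_spec (nonZeroDivisors ℤ) R
  have hq0 : q ≠ 0 := nonZeroDivisors.ne_zero hq
  obtain ⟨S, hS⟩ : ∃ S, S = IsLocalization.integerNormalization (nonZeroDivisors ℤ) R := ⟨_, rfl⟩
  rw [← hS] at h
  have h' : S.map (algebraMap ℤ ℚ) = C (q : ℚ) * R := by
    rw [h, zsmul_eq_mul]
    congr 1
  refine ⟨q, S, hq0, ?_, fun ξ => ?_⟩
  · rw [← natDegree_map_eq_of_injective (RingHom.injective_int (algebraMap ℤ ℚ)) S, h',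
      natDegree_C_mul (by exact_mod_cast hq0)]
  · rw [← aeval_map_algebraMap ℚ ξ S, h', map_mul, aeval_C]
    simp

/-- The general inequalities. -/
theorem general (hF : StF) (hH : StH) (hJ : StJ) (ξ : ℝ) (h : IsSStar ξ) (R : ℚ[X])
    (hm : 1 ≤ R.natDegree) :
    IsSStar (aeval ξ R) ∧ wStar ξ ≤ R.natDegree * wStar (aeval ξ R) ∧
      wStar (aeval ξ R) ≤ R.natDegree * wStar ξ := by
  obtain ⟨q, S, hq, hd, hv⟩ := exists_int R
  obtain ⟨h1, h2, h3⟩ := generalZ hF hH hJ ξ h S (by omega)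
  rw [hv] at h1 h2 h3
  have hs := scale hF hH (aeval ξ R) q hq h1.1
  unfold IsSStar at h1 ⊢
  rw [hs, ← hd]
  exact ⟨h1, h2, h3⟩

end Pool.Agent.H16.PI
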