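import Pool.Agent.H16.PI.A

set_option autoImplicit false

namespace Pool.Agent.H16.PI

open Polynomial Pool.Agent Pool.Agent.Helper35 Pool.Agent.Y821.PW

lemma NR_lead {R S : ℤ[X]} (hR : 1 ≤ R.natDegree) (hS : S ≠ 0) :
    NR R S ≠ 0 ∧ (NR R S).natDegree = S.natDegree ∧
      (NR R S).leadingCoeff = S.leadingCoeff ^ R.natDegree := by
  have h := stA R S hR hS
  have hSd : (S.map (Int.castRingHom ℂ)).roots.card = S.natDegree := by
    rw [← (IsAlgClosed.splits (S.map (Int.castRingHom ℂ))).natDegree_eq_card_roots]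
    exact natDegree_map_eq_of_injective (RingHom.injective_int _) _
  have hmon : (((S.map (Int.castRingHom ℂ)).roots.map
      (fun a : ℂ => (X : ℂ[X]) - C (aeval a R))).prod).Monic :=
    monic_multiset_prod_of_monic _ _ (fun a _ => monic_X_sub_C _)
  have hdeg : (((S.map (Int.castRingHom ℂ)).roots.map
      (fun a : ℂ => (X : ℂ[X]) - C (aeval a R))).prod).natDegree = S.natDegree := by
    rw [natDegree_multiset_prod_of_monic]
    · rw [Multiset.map_map]
      simp [hSd]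
    · intro f hf
      obtain ⟨a, -, rfl⟩ := Multiset.mem_map.1 hf
      exact monic_X_sub_C _
  have ha : ((S.leadingCoeff : ℂ) ^ R.natDegree) ≠ 0 :=
    pow_ne_zero _ (by exact_mod_cast leadingCoeff_ne_zero.2 hS)
  have hl : ((NR R S).map (Int.castRingHom ℂ)).leadingCoeff = (S.leadingCoeff : ℂ) ^ R.natDegree := by
    rw [h, leadingCoeff_mul, leadingCoeff_C, hmon.leadingCoeff, mul_one]
  refine ⟨?_, ?_, ?_⟩
  · intro h0
    rw [h0, Polynomial.map_zero, leadingCoeff_zero] at hl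
    exact ha hl.symm
  · rw [← natDegree_map_eq_of_injective (RingHom.injective_int (Int.castRingHom ℂ)) (NR R S), h,
      natDegree_C_mul ha, hdeg]
  · rw [leadingCoeff_map_of_injective (RingHom.injective_int _)] at hl
    have h2 : (((NR R S).leadingCoeff : ℤ) : ℂ) = ((S.leadingCoeff ^ R.natDegree : ℤ) : ℂ) := by
      push_cast
      exact hl
    exact_mod_cast h2

lemma S_coeff_dvd {e V Mq : ℕ → ℕ} (X : SData e V Mq) (k i : ℕ) (hi : 1 ≤ i) :
    ((X.p k : ℕ) : ℤ) ∣ (X.S k).coeff i := by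
  have h1 : (X.S k).coeff i = ∑ j ∈ Finset.range ((TD (e k)).T.natDegree + 1),
      ((TD (e k)).T.coeff j * (X.N k : ℤ) ^ ((TD (e k)).T.natDegree - j)) *
        ((C ((X.N k : ℕ) : ℤ) * Polynomial.X + C (-(X.n k)) : ℤ[X]) ^ j).coeff i := by
    rw [SData.S, SP, shf, finsetSum_coeff]
    refine Finset.sum_congr rfl (fun j _ => ?_)
    rw [coeff_C_mul]
  rw [h1]
  apply Finset.dvd_sum
  intro j _
  apply Dvd.dvd.mul_left
  have hpN : ((X.p k : ℕ) : ℤ) ∣ (X.N k : ℤ) := by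
    have h3 : X.p k ∣ X.N k := dvd_pow_self _ (by have := SData.EA_pos k; omega)
    exact_mod_cast h3
  have h2 : (C ((X.N k : ℕ) : ℤ) * Polynomial.X + C (-(X.n k)) : ℤ[X]) ^ j =
      (((Polynomial.X + C (-(X.n k)) : ℤ[X]) ^ j).comp (C ((X.N k : ℕ) : ℤ) * Polynomial.X)) := by
    rw [pow_comp, add_comp, X_comp, C_comp]
  rw [h2, comp_C_mul_X_coeff]
  exact Dvd.dvd.mul_left (hpN.trans (dvd_pow_self _ (by omega))) _

variable {e V Mq : ℕ → ℕ} (X : SData e V Mq)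

/-- The bound at `R(ξ)`. -/
theorem bound_R (hB : StB) (hC : StC) (hD : StD) (hE : StE) (R : ℤ[X]) (hR : 1 ≤ R.natDegree)
    (hcop : ∀ k, Nat.Coprime (e k + 1) R.natDegree.factorial)
    (hM : Demand e Mq) (hmono : Monotone V) (hV : ∀ j, 22 ≤ V j) (hV40 : ∀ j, 40 * (j + 1) ≤ V j)
    (U : ℕ → ℕ) (hVU : ∀ j, V j = R.natDegree * U j) (hU : StrictMono U)
    (hUbig : ∀ j, 40 * (R.natDegree * j + 1) + 1 ≤ U j) (n : ℕ) :
    ∃ c : ℝ, 0 < c ∧ ∀ P : ℤ[X], P ≠ 0 → P.natDegree ≤ n →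
      c ≤ |aeval (aeval X.ξ R) P| * (ht P : ℝ) ^ (U n) := by
  have hne := W72.ne_zero_at X hM hV hmono hV40
  obtain ⟨m, hm⟩ : ∃ m, m = R.natDegree := ⟨_, rfl⟩
  rw [← hm] at hR hcop hVU hUbig
  apply general_bound
  intro μ hμ hμn
  obtain ⟨c1, hc1, hcc1⟩ := W72.pred_bound X hne (m * μ)
  obtain ⟨c2, hc2, hprod⟩ := hD X hM hV hmono hV40 R (by omega) (μ - 1)
  obtain ⟨K, hK, hcomp⟩ := hE R μ
  obtain ⟨c1', hc1'd⟩ : ∃ c1' : ℝ, c1' = c1 / K ^ (40 * (m * μ + 1)) := ⟨_, rfl⟩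
  have hc1' : 0 < c1' := by rw [hc1'd]; positivity
  have hCh : 1 ≤ SData.Ch (μ - 1) := SData.Ch_one_le _
  have hCh0 : 0 < SData.Ch (μ - 1) := by linarith
  obtain ⟨Ch, hChd⟩ : ∃ Ch : ℝ, Ch = SData.Ch (μ - 1) := ⟨_, rfl⟩
  rw [← hChd] at hCh hCh0
  obtain ⟨tt, htt⟩ : ∃ tt : ℕ, tt = (TD (μ - 1)).T.leadingCoeff.natAbs := ⟨_, rfl⟩
  have htt1 : 1 ≤ tt := by
    rw [htt]
    exact Int.natAbs_pos.mpr (leadingCoeff_ne_zero.mpr (TD (μ - 1)).irr.ne_zero)
  obtain ⟨R0, hR0d⟩ : ∃ R0 : ℝ, R0 = (tt : ℝ) ^ m := ⟨_, rfl⟩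
  have hR0 : 0 < R0 := by
    rw [hR0d]
    have : (0 : ℝ) < tt := by exact_mod_cast htt1
    positivity
  obtain ⟨c3, hc3d⟩ : ∃ c3 : ℝ, c3 = c2 / R0 / (Ch ^ m) ^ (U (μ - 1)) := ⟨_, rfl⟩
  have hc3 : 0 < c3 := by rw [hc3d]; positivity
  -- the finitely many exceptional stages
  obtain ⟨K0, hK0⟩ : ∃ K0 : ℕ, K0 = R.leadingCoeff.natAbs := ⟨_, rfl⟩
  obtain ⟨c4, hc4, hc4'⟩ : ∃ c4 : ℝ, 0 < c4 ∧ ∀ k ≤ K0,
      c4 ≤ c2 * |aeval X.ξ (X.S k)| / ((NR R (X.S k)).leadingCoeff.natAbs : ℝ) := by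
    have hpos : ∀ k, 0 < c2 * |aeval X.ξ (X.S k)| / ((NR R (X.S k)).leadingCoeff.natAbs : ℝ) := by
      intro k
      have h1 := abs_pos.2 (hne _ (X.S_irr k).ne_zero)
      have h2 : 0 < (NR R (X.S k)).leadingCoeff.natAbs :=
        Int.natAbs_pos.2 (leadingCoeff_ne_zero.2 (NR_lead (by omega) (X.S_irr k).ne_zero).1)
      have h3 : (0 : ℝ) < ((NR R (X.S k)).leadingCoeff.natAbs : ℝ) := by exact_mod_cast h2
      positivity
    obtain ⟨k0, _, hk0⟩ := (Finset.range (K0 + 1)).exists_min_image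
      (fun k => c2 * |aeval X.ξ (X.S k)| / ((NR R (X.S k)).leadingCoeff.natAbs : ℝ))
      ⟨0, Finset.mem_range.mpr (by omega)⟩
    exact ⟨_, hpos k0, fun k hk => hk0 k (Finset.mem_range.mpr (by omega))⟩
  refine ⟨⌈1 / c1'⌉₊ + ⌈1 / c3⌉₊ + ⌈1 / c4⌉₊, fun P hP hPd hH => ?_⟩
  have hH1 : (1 : ℝ) ≤ ht P := by exact_mod_cast ht_pos hP.ne_zero
  have hHc1 : 1 ≤ c1' * ht P := by
    have h1 : 1 / c1' ≤ ht P := (Nat.le_ceil _).trans (by exact_mod_cast (by omega))
    rw [div_le_iff₀ hc1'] at h1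
    linarith
  have hHc3 : 1 ≤ c3 * ht P := by
    have h1 : 1 / c3 ≤ ht P := (Nat.le_ceil _).trans (by exact_mod_cast (by omega))
    rw [div_le_iff₀ hc3] at h1
    linarith
  have hHc4 : 1 ≤ c4 * ht P := by
    have h1 : 1 / c4 ≤ ht P := (Nat.le_ceil _).trans (by exact_mod_cast (by omega))
    rw [div_le_iff₀ hc4] at h1
    linarith
  have hval : aeval X.ξ (P.comp R) = aeval (aeval X.ξ R) P := aeval_comp _
  have hcd : (P.comp R).natDegree = μ * m := by rw [natDegree_comp, hPd, hm]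
  by_cases hG : ∀ k, ¬ X.S k ∣ P.comp R
  · have hR' : P.comp R ≠ 0 := by
      intro h0
      rw [h0, natDegree_zero] at hcd
      have : 0 < μ * m := Nat.mul_pos (by omega) (by omega)
      omega
    have h1 := hcc1 (P.comp R) hG hR' (by rw [hcd, mul_comm])
    have hhe' := hcomp P (by omega)
    rw [hval] at h1
    have hUn : 40 * (m * μ + 1) + 1 ≤ U n := by
      have h2 := hUbig n
      have h3 : m * μ ≤ m * n := Nat.mul_le_mul_left _ hμn
      omega
    have h2 : c1' ≤ |aeval (aeval X.ξ R) P| * (ht P : ℝ) ^ (40 * (m * μ + 1)) := by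
      rw [hc1'd, div_le_iff₀ (by positivity)]
      calc c1 ≤ |aeval (aeval X.ξ R) P| * (ht (P.comp R) : ℝ) ^ (40 * (m * μ + 1)) := h1
        _ ≤ |aeval (aeval X.ξ R) P| * (K * ht P) ^ (40 * (m * μ + 1)) := by gcongr
        _ = _ := by rw [mul_pow]; ring
    calc (1 : ℝ) ≤ c1' * ht P := hHc1
      _ ≤ (|aeval (aeval X.ξ R) P| * (ht P : ℝ) ^ (40 * (m * μ + 1))) * ht P := by gcongr
      _ = |aeval (aeval X.ξ R) P| * (ht P : ℝ) ^ (40 * (m * μ + 1) + 1) := by ring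
      _ ≤ _ := by
          have : (ht P : ℝ) ^ (40 * (m * μ + 1) + 1) ≤ (ht P : ℝ) ^ (U n) :=
            pow_le_pow_right₀ hH1 hUn
          gcongr
  · push Not at hG
    obtain ⟨k, hk⟩ := hG
    have hSq := (X.S_props k).1
    have hSd : (X.S k).natDegree = e k + 1 := (X.S_props k).2.2.1
    obtain ⟨hdeg, g, r, p, hg0, hr0, hPg, hNE⟩ := hC R (X.S k) P (by omega) hSq hP hk
      (by rw [hSd, ← hm]; exact hcop k)
    have hek : e k = μ - 1 := by omega
    have hμe : e k + 1 = μ := by omega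
    have hS0 := (X.S_irr k).ne_zero
    obtain ⟨hNR0, hNRd, hlead⟩ := NR_lead (R := R) (by omega) hS0
    have hrR : (1 : ℝ) ≤ |(r : ℝ)| := by exact_mod_cast Int.one_le_abs hr0
    have hgR : (1 : ℝ) ≤ |(g : ℝ)| := by exact_mod_cast Int.one_le_abs hg0
    have hv1 : |aeval (aeval X.ξ R) (NR R (X.S k))| = |(r : ℝ)| * |aeval (aeval X.ξ R) p| := by
      rw [hNE, map_mul, abs_mul, aeval_C]; simp
    have hv2 : |aeval (aeval X.ξ R) P| = |(g : ℝ)| * |aeval (aeval X.ξ R) p| := by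
      rw [hPg, map_mul, abs_mul, aeval_C]; simp
    have h7 : |aeval (aeval X.ξ R) p| ≤ |aeval (aeval X.ξ R) P| := by
      rw [hv2]
      exact le_mul_of_one_le_left (abs_nonneg _) hgR
    have h6 := hprod k hek
    rw [hv1] at h6
    have hrpos : 1 ≤ r.natAbs := Int.natAbs_pos.2 hr0
    have hUpos : (1 : ℝ) ≤ (ht P : ℝ) ^ (U (μ - 1)) := one_le_pow₀ hH1
    have h11 : U (μ - 1) + 1 ≤ U n := hU (by omega : μ - 1 < n)
    have hfinish : ∀ c : ℝ, 0 < c → 1 ≤ c * ht P →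
        c ≤ |aeval (aeval X.ξ R) P| * (ht P : ℝ) ^ (U (μ - 1)) →
        1 ≤ |aeval (aeval X.ξ R) P| * (ht P : ℝ) ^ (U n) := by
      intro c hc h12 h10
      calc (1 : ℝ) ≤ c * ht P := h12
        _ ≤ (|aeval (aeval X.ξ R) P| * (ht P : ℝ) ^ (U (μ - 1))) * ht P := by gcongr
        _ = |aeval (aeval X.ξ R) P| * (ht P : ℝ) ^ (U (μ - 1) + 1) := by ring
        _ ≤ _ := by
            have : (ht P : ℝ) ^ (U (μ - 1) + 1) ≤ (ht P : ℝ) ^ (U n) :=
              pow_le_pow_right₀ hH1 h11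
            gcongr
    by_cases hkK : k ≤ K0
    · apply hfinish c4 hc4 hHc4
      refine (hc4' k hkK).trans ?_
      have hL : 0 < (NR R (X.S k)).leadingCoeff.natAbs :=
        Int.natAbs_pos.2 (leadingCoeff_ne_zero.2 hNR0)
      have hLr : (0 : ℝ) < ((NR R (X.S k)).leadingCoeff.natAbs : ℝ) := by exact_mod_cast hL
      rw [div_le_iff₀ hLr]
      have hrL : |(r : ℝ)| ≤ ((NR R (X.S k)).leadingCoeff.natAbs : ℝ) := by
        have h8 : r.natAbs ≤ (NR R (X.S k)).leadingCoeff.natAbs := by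
          apply Nat.le_of_dvd hL
          rw [hNE, leadingCoeff_mul, leadingCoeff_C, Int.natAbs_mul]
          exact dvd_mul_right _ _
        have h9 : ((r.natAbs : ℕ) : ℝ) ≤ ((NR R (X.S k)).leadingCoeff.natAbs : ℝ) := by
          exact_mod_cast h8
        rw [Nat.cast_natAbs] at h9
        push_cast at h9
        exact h9
      calc c2 * |aeval X.ξ (X.S k)| ≤ |(r : ℝ)| * |aeval (aeval X.ξ R) p| := h6
        _ ≤ ((NR R (X.S k)).leadingCoeff.natAbs : ℝ) *
            (|aeval (aeval X.ξ R) P| * (ht P : ℝ) ^ (U (μ - 1))) := by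
            apply mul_le_mul hrL _ (abs_nonneg _) hLr.le
            exact h7.trans (le_mul_of_one_le_right (abs_nonneg _) hUpos)
        _ = _ := by ring
    · apply hfinish c3 hc3 hHc3
      obtain ⟨hS, hhS⟩ : ∃ a : ℝ, a = (ht (X.S k) : ℝ) := ⟨_, rfl⟩
      have hS1 : 1 ≤ hS := by rw [hhS]; exact_mod_cast ht_pos hS0
      have h1 := X.spec_lower hM hV k 1 one_ne_zero
      rw [C_1, one_mul, ← hhS, hVU, hek] at h1
      have h3 := X.ht_S_upper hV k
      rw [hek, ← hhS, ← hChd] at h3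
      have hpr := X.prime k
      have hpk : K0 < X.p k := by
        have h4 := hM k
        have h5 := X.pM k
        omega
      have hRl : R.leadingCoeff ≠ 0 := by
        intro h0
        rw [leadingCoeff_eq_zero] at h0
        rw [h0, natDegree_zero] at hm
        omega
      have hplead : ¬ ((X.p k : ℕ) : ℤ) ∣ R.leadingCoeff := by
        intro hd
        have h4 : X.p k ∣ R.leadingCoeff.natAbs := Int.natCast_dvd.mp hd
        have h5 := Nat.le_of_dvd (Int.natAbs_pos.2 hRl) h4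
        omega
      have hrp : ¬ X.p k ∣ r.natAbs := by
        intro hd
        have h4 : ((X.p k : ℕ) : ℤ) ∣ r := Int.natCast_dvd.mpr hd
        apply hB R (X.S k) (X.p k) hpr (by omega) hplead (fun i hi => S_coeff_dvd X k i hi)
          (W72.S_coeff_zero' X k)
        rw [hNE, coeff_C_mul]
        exact h4.mul_right _
      have hlead2 : (NR R (X.S k)).leadingCoeff.natAbs = (X.N k ^ μ) ^ m * tt ^ m := by
        rw [hlead, X.lead_S, Int.natAbs_pow, Int.natAbs_mul, Int.natAbs_pow, Int.natAbs_natCast,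
          hek, ← htt, ← hm, mul_pow]
        congr 3
        omega
      have hr1 : r.natAbs ∣ (X.N k ^ μ) ^ m * tt ^ m := by
        rw [← hlead2, hNE, leadingCoeff_mul, leadingCoeff_C, Int.natAbs_mul]
        exact dvd_mul_right _ _
      have hcopr : Nat.Coprime r.natAbs ((X.N k ^ μ) ^ m) := by
        have h4 : Nat.Coprime r.natAbs (X.p k) := ((Nat.Prime.coprime_iff_not_dvd hpr).2 hrp).symm
        have h5 : Nat.Coprime r.natAbs (X.N k) := by
          unfold SData.N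
          exact Nat.Coprime.pow_right _ h4
        exact Nat.Coprime.pow_right _ (Nat.Coprime.pow_right _ h5)
      have hr2 : r.natAbs ≤ tt ^ m :=
        Nat.le_of_dvd (by positivity) (hcopr.dvd_of_dvd_mul_left hr1)
      have hgpos : 1 ≤ g.natAbs := Int.natAbs_pos.2 hg0
      have hhtNE : ht (NR R (X.S k)) = r.natAbs * ht p := by rw [hNE, ht_intCast_mul]
      have hhtP : ht P = g.natAbs * ht p := by rw [hPg, ht_intCast_mul]
      have hNm : (X.N k ^ μ) ^ m ≤ ht P := by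
        have h4 : (X.N k ^ μ) ^ m * tt ^ m ≤ r.natAbs * ht p := by
          rw [← hhtNE, ← hlead2]
          exact natAbs_coeff_le_ht _ _
        have h5 : (X.N k ^ μ) ^ m * r.natAbs ≤ ht p * r.natAbs := by
          calc (X.N k ^ μ) ^ m * r.natAbs ≤ (X.N k ^ μ) ^ m * tt ^ m := Nat.mul_le_mul_left _ hr2
            _ ≤ r.natAbs * ht p := h4
            _ = _ := mul_comm _ _
        have h6 : (X.N k ^ μ) ^ m ≤ ht p := Nat.le_of_mul_le_mul_right h5 hrpos
        rw [hhtP]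
        exact h6.trans (Nat.le_mul_of_pos_left _ hgpos)
      have h4 : hS ^ m ≤ Ch ^ m * ht P := by
        have h5 : hS ^ m ≤ (Ch * (X.N k : ℝ) ^ (μ - 1 + 1)) ^ m := by gcongr
        refine h5.trans ?_
        rw [mul_pow, show μ - 1 + 1 = μ by omega]
        have h6 : (((X.N k : ℝ) ^ μ) ^ m) ≤ ht P := by exact_mod_cast hNm
        gcongr
      have h5 : hS ^ (m * U (μ - 1)) ≤ (Ch ^ m) ^ (U (μ - 1)) * (ht P : ℝ) ^ (U (μ - 1)) := by
        calc hS ^ (m * U (μ - 1)) = (hS ^ m) ^ (U (μ - 1)) := by rw [← pow_mul]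
          _ ≤ (Ch ^ m * ht P) ^ (U (μ - 1)) := by gcongr
          _ = _ := by rw [mul_pow]
      have hrR2 : |(r : ℝ)| ≤ R0 := by
        rw [hR0d]
        have : ((r.natAbs : ℕ) : ℝ) ≤ ((tt ^ m : ℕ) : ℝ) := by exact_mod_cast hr2
        rw [Nat.cast_natAbs] at this
        push_cast at this
        exact this
      have hv3 : c2 / R0 * |aeval X.ξ (X.S k)| ≤ |aeval (aeval X.ξ R) P| := by
        have h8 : c2 * |aeval X.ξ (X.S k)| ≤ R0 * |aeval (aeval X.ξ R) P| :=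
          h6.trans (mul_le_mul hrR2 h7 (abs_nonneg _) hR0.le)
        rw [div_mul_eq_mul_div, div_le_iff₀ hR0]
        linarith
      rw [hc3d, div_le_iff₀ (by positivity)]
      calc c2 / R0 = c2 / R0 * 1 := (mul_one _).symm
        _ ≤ c2 / R0 * (|aeval X.ξ (X.S k)| * hS ^ (m * U (μ - 1))) := by gcongr
        _ = (c2 / R0 * |aeval X.ξ (X.S k)|) * hS ^ (m * U (μ - 1)) := by ring
        _ ≤ |aeval (aeval X.ξ R) P| * ((Ch ^ m) ^ (U (μ - 1)) * (ht P : ℝ) ^ (U (μ - 1))) := by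
            gcongr
        _ = _ := by ring

end Pool.Agent.H16.PI
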