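import Pool.Agent.H16.PI.Ex

set_option autoImplicit false

namespace Pool.Agent.H16.PI

open Polynomial Pool.Agent Pool.Agent.Helper35 Pool.Agent.Y821.PW

lemma abs_aeval_le_max (P : ℤ[X]) (x : ℝ) (n : ℕ) (hn : P.natDegree ≤ n) :
    |aeval x P| ≤ ((n : ℝ) + 1) * (max 1 |x|) ^ n * ht P := by
  have h1 : (1 : ℝ) ≤ max 1 |x| := le_max_left _ _
  rw [aeval_eq_sum_range' (Nat.lt_succ_of_le hn)]
  refine (Finset.abs_sum_le_sum_abs _ _).trans ?_
  calc ∑ i ∈ Finset.range (n + 1), |P.coeff i • x ^ i|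
      ≤ ∑ _i ∈ Finset.range (n + 1), (max 1 |x|) ^ n * ht P := by
        refine Finset.sum_le_sum (fun i hi => ?_)
        rw [zsmul_eq_mul, abs_mul, abs_pow, mul_comm]
        have h2 : |((P.coeff i : ℤ) : ℝ)| ≤ ht P := abs_coeff_le_ht P i
        have h3 : |x| ^ i ≤ (max 1 |x|) ^ n := by
          calc |x| ^ i ≤ (max 1 |x|) ^ i := by gcongr; exact le_max_right _ _
            _ ≤ _ := pow_le_pow_right₀ h1 (by have := Finset.mem_range.1 hi; omega)
        gcongr
    _ = _ := by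
        rw [Finset.sum_const, Finset.card_range, nsmul_eq_mul]; push_cast; ring

lemma const_coeff_comp {S R : ℤ[X]} {p : ℤ} (h : ∀ i, 1 ≤ i → p ∣ S.coeff i) :
    p ∣ (S.comp R).coeff 0 - S.coeff 0 := by
  have h1 : (S.comp R).coeff 0 = S.eval (R.coeff 0) := by
    rw [coeff_zero_eq_eval_zero, eval_comp, ← coeff_zero_eq_eval_zero]
  rw [h1, eval_eq_sum_range, Finset.sum_range_succ']
  simp only [pow_zero, mul_one]
  rw [add_sub_cancel_right]
  exact Finset.dvd_sum (fun i _ => (h (i + 1) (by omega)).mul_right _)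

variable {e V Mq : ℕ → ℕ} (X : SData e V Mq)

/-- The bound at the preimages of `ξ` under `R`. -/
theorem bound_pre (hG : StG) (hL : StL) (hMM : StM) (hN : StN) (hE : StE)
    (hM : Demand e Mq) (hmono : Monotone V) (hV : ∀ j, 22 ≤ V j) (hV40 : ∀ j, 40 * (j + 1) ≤ V j)
    (R : ℤ[X]) (hR : 1 ≤ R.natDegree)
    (hEA : ∀ k, e k = 0 ∨ Nat.Coprime (EA k * (e k + 1)) R.natDegree)
    (hVbig : ∀ j, 40 * R.natDegree * (R.natDegree * (j + 1)) + R.natDegree ≤ V j)
    (η : ℝ) (hη : aeval η R = X.ξ) (n : ℕ) :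
    ∃ c : ℝ, 0 < c ∧ ∀ P : ℤ[X], P ≠ 0 → P.natDegree ≤ n →
      c ≤ |aeval η P| * (ht P : ℝ) ^ (V (n / R.natDegree) + 1 +
        (R.natDegree * (V 0 + 1) + 1)) := by
  have hne := W72.ne_zero_at X hM hV hmono hV40
  obtain ⟨m, hm⟩ : ∃ m, m = R.natDegree := ⟨_, rfl⟩
  rw [← hm]
  rw [← hm] at hR hEA hVbig
  have hRl : R.leadingCoeff ≠ 0 := by
    intro h0
    rw [leadingCoeff_eq_zero] at h0
    rw [h0, natDegree_zero] at hm
    omega
  have hm0 : 0 < m := hR
  apply general_bound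
  intro μ hμ hμn
  obtain ⟨c1, hc1, hcc1⟩ := W72.pred_bound X hne μ
  obtain ⟨K, hK, hKK⟩ := hG R μ (by omega)
  obtain ⟨CL, hCL, hCLL⟩ := hL R μ η (by omega)
  rw [← hm] at hKK hCLL
  obtain ⟨KE, hKE, hKEE⟩ := hE R 1
  -- constants
  obtain ⟨c2, hc2d⟩ : ∃ c2 : ℝ, c2 = c1 / (CL * K ^ (40 * (μ + 1))) := ⟨_, rfl⟩
  have hc2 : 0 < c2 := by rw [hc2d]; positivity
  obtain ⟨K1, hK1d⟩ : ∃ K1 : ℝ, K1 = 2 ^ μ * ((μ : ℝ) + 1) * K := ⟨_, rfl⟩
  have hK1' : 0 < K1 := by rw [hK1d]; positivity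
  obtain ⟨K2, hK2d⟩ : ∃ K2 : ℝ, K2 = (((m : ℝ) + 1) * (max 1 |η|) ^ m) *
      (2 ^ m * ((m : ℝ) + 1) * KE) := ⟨_, rfl⟩
  have hmax : (1 : ℝ) ≤ max 1 |η| := le_max_left _ _
  have hK2 : 0 < K2 := by rw [hK2d]; positivity
  obtain ⟨C3, hC3d⟩ : ∃ C3 : ℝ, C3 = K2 * K1 ^ (V 0 + 1) := ⟨_, rfl⟩
  have hC3 : 0 < C3 := by rw [hC3d]; positivity
  -- exceptional stages
  obtain ⟨K0, hK0⟩ : ∃ K0 : ℕ, K0 = R.leadingCoeff.natAbs := ⟨_, rfl⟩
  have hF0 : ∀ k, (X.S k).comp R ≠ 0 := by
    intro k h0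
    have h1 := congrArg natDegree h0
    rw [natDegree_comp, natDegree_zero, (X.S_props k).2.2.1, ← hm] at h1
    have : 0 < (e k + 1) * m := Nat.mul_pos (by omega) hm0
    omega
  obtain ⟨Bd, hBd⟩ : ∃ Bd : ℕ → ℝ, Bd = fun k =>
      (((((X.S k).comp R).natDegree : ℕ) : ℝ) + 1) * (max 1 |η|) ^ ((X.S k).comp R).natDegree *
      (2 ^ ((X.S k).comp R).natDegree * (((((X.S k).comp R).natDegree : ℕ) : ℝ) + 1) *
        ht ((X.S k).comp R)) := ⟨_, rfl⟩
  have hBdpos : ∀ k, 0 < Bd k := by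
    intro k
    rw [hBd]
    have h1 : (0 : ℝ) < ht ((X.S k).comp R) := by exact_mod_cast ht_pos (hF0 k)
    positivity
  obtain ⟨c4, hc4, hc4'⟩ : ∃ c4 : ℝ, 0 < c4 ∧ ∀ k ≤ K0, c4 ≤ |aeval X.ξ (X.S k)| / Bd k := by
    have hpos : ∀ k, 0 < |aeval X.ξ (X.S k)| / Bd k := fun k =>
      div_pos (abs_pos.2 (hne _ (X.S_irr k).ne_zero)) (hBdpos k)
    obtain ⟨k0, _, hk0⟩ := (Finset.range (K0 + 1)).exists_min_image
      (fun k => |aeval X.ξ (X.S k)| / Bd k) ⟨0, Finset.mem_range.mpr (by omega)⟩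
    exact ⟨_, hpos k0, fun k hk => hk0 k (Finset.mem_range.mpr (by omega))⟩
  -- constants for the generic stages
  obtain ⟨j, hj⟩ : ∃ j, j = μ / m - 1 := ⟨_, rfl⟩
  obtain ⟨Ch, hChd⟩ : ∃ Ch : ℝ, Ch = SData.Ch j := ⟨_, rfl⟩
  have hCh : 1 ≤ Ch := by rw [hChd]; exact SData.Ch_one_le _
  obtain ⟨Cc, hCcd⟩ : ∃ Cc : ℕ, Cc = (TD j).T.leadingCoeff.natAbs * K0 ^ (j + 1) := ⟨_, rfl⟩
  have hK0pos : 0 < K0 := by rw [hK0]; exact Int.natAbs_pos.2 hRl
  have hCc : 0 < Cc := by
    rw [hCcd]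
    exact Nat.mul_pos (Int.natAbs_pos.mpr (leadingCoeff_ne_zero.mpr (TD j).irr.ne_zero))
      (by positivity)
  have hCcr : (1 : ℝ) ≤ Cc := by exact_mod_cast hCc
  obtain ⟨C5, hC5d⟩ : ∃ C5 : ℝ, C5 = Cc * (Ch * Cc) ^ V j := ⟨_, rfl⟩
  have hC5 : 0 < C5 := by rw [hC5d]; positivity
  refine ⟨⌈1 / c2⌉₊ + ⌈C3⌉₊ + ⌈1 / c4⌉₊ + ⌈C5⌉₊, fun P hP hPd hH => ?_⟩
  have hP0 := hP.ne_zero
  have hH1 : (1 : ℝ) ≤ ht P := by exact_mod_cast ht_pos hP0
  have hHc2 : 1 ≤ c2 * ht P := by
    have h1 : 1 / c2 ≤ ht P := (Nat.le_ceil _).trans (by exact_mod_cast (by omega))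
    rw [div_le_iff₀ hc2] at h1
    linarith
  have hHC3 : C3 ≤ ht P := (Nat.le_ceil _).trans (by exact_mod_cast (by omega))
  have hHc4 : 1 ≤ c4 * ht P := by
    have h1 : 1 / c4 ≤ ht P := (Nat.le_ceil _).trans (by exact_mod_cast (by omega))
    rw [div_le_iff₀ hc4] at h1
    linarith
  have hHC5 : C5 ≤ ht P := (Nat.le_ceil _).trans (by exact_mod_cast (by omega))
  obtain ⟨hE0, hEdeg, -⟩ := NR_lead (R := R) (by omega) hP0
  have hEht := hKK P hP0 (by omega)
  have hfin : ∀ E : ℕ, E ≤ V (n / m) + 1 + (m * (V 0 + 1) + 1) →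
      1 ≤ |aeval η P| * (ht P : ℝ) ^ E →
      1 ≤ |aeval η P| * (ht P : ℝ) ^ (V (n / m) + 1 + (m * (V 0 + 1) + 1)) := by
    intro E hE h1
    have : (ht P : ℝ) ^ E ≤ (ht P : ℝ) ^ (V (n / m) + 1 + (m * (V 0 + 1) + 1)) :=
      pow_le_pow_right₀ hH1 hE
    refine h1.trans ?_
    gcongr
  by_cases hG' : ∀ k, ¬ X.S k ∣ NR R P
  · have h1 := hcc1 (NR R P) hG' hE0 (by omega)
    have hval := hCLL P hP0 (by omega)
    rw [hη] at hval
    have h3 : (ht (NR R P) : ℝ) ^ (40 * (μ + 1)) ≤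
        K ^ (40 * (μ + 1)) * (ht P : ℝ) ^ (m * (40 * (μ + 1))) := by
      calc (ht (NR R P) : ℝ) ^ (40 * (μ + 1)) ≤ (K * (ht P : ℝ) ^ m) ^ (40 * (μ + 1)) := by gcongr
        _ = _ := by rw [mul_pow, ← pow_mul]
    have h4 : c1 ≤ (CL * |aeval η P| * (ht P : ℝ) ^ (m - 1)) *
        (K ^ (40 * (μ + 1)) * (ht P : ℝ) ^ (m * (40 * (μ + 1)))) := by
      refine h1.trans ?_
      gcongr
    have h5 : c2 ≤ |aeval η P| * (ht P : ℝ) ^ (m * (40 * (μ + 1)) + (m - 1)) := by
      rw [hc2d, div_le_iff₀ (by positivity)]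
      refine h4.trans (le_of_eq ?_)
      rw [pow_add]
      ring
    apply hfin (m * (40 * (μ + 1)) + (m - 1) + 1)
    · have h7 := hVbig (n / m)
      have h8 : μ + 1 ≤ m * (n / m + 1) := by
        have := Nat.lt_mul_div_succ n hm0
        omega
      have h9 : m * (40 * (μ + 1)) ≤ m * (40 * (m * (n / m + 1))) := by gcongr
      have h10 : m * (40 * (m * (n / m + 1))) = 40 * m * (m * (n / m + 1)) := by ring
      omega
    · calc (1 : ℝ) ≤ c2 * ht P := hHc2
        _ ≤ (|aeval η P| * (ht P : ℝ) ^ (m * (40 * (μ + 1)) + (m - 1))) * ht P := by gcongr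
        _ = _ := by ring
  · push Not at hG'
    obtain ⟨k, hk⟩ := hG'
    have hSq := (X.S_props k).1
    have hSd : (X.S k).natDegree = e k + 1 := (X.S_props k).2.2.1
    have hS0 := (X.S_irr k).ne_zero
    obtain ⟨hS, hhS⟩ : ∃ a : ℝ, a = (ht (X.S k) : ℝ) := ⟨_, rfl⟩
    have hS1 : 1 ≤ hS := by rw [hhS]; exact_mod_cast ht_pos hS0
    have h1 := X.spec_lower hM hV k 1 one_ne_zero
    rw [C_1, one_mul, ← hhS] at h1
    -- the primitive part
    obtain ⟨p, hp⟩ : ∃ p, p = P.primPart := ⟨_, rfl⟩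
    obtain ⟨g, hg⟩ : ∃ g, g = P.content := ⟨_, rfl⟩
    have hPfac : P = C g * p := by rw [hg, hp]; exact P.eq_C_content_mul_primPart
    have hg0 : g ≠ 0 := by
      intro h
      rw [h, C_0, zero_mul] at hPfac
      exact hP0 hPfac
    have hpprim : p.IsPrimitive := by rw [hp]; exact P.isPrimitive_primPart
    have hpE : p ∣ (X.S k).comp R := by
      apply (IsPrimitive.Int.dvd_iff_map_cast_dvd_map_cast _ _ hpprim).2
      have h3 : p.map (Int.castRingHom ℚ) ∣ P.map (Int.castRingHom ℚ) := by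
        rw [hPfac, Polynomial.map_mul]; exact dvd_mul_left _ _
      exact h3.trans (hMM R (X.S k) P (by omega) hSq hP hk)
    obtain ⟨W, hW⟩ := hpE
    have hWdvd : W ∣ (X.S k).comp R := ⟨p, by rw [hW, mul_comm]⟩
    have hgR : (1 : ℝ) ≤ |(g : ℝ)| := by exact_mod_cast Int.one_le_abs hg0
    have hpP : |aeval η p| ≤ |aeval η P| := by
      have : |aeval η P| = |(g : ℝ)| * |aeval η p| := by
        conv_lhs => rw [hPfac]
        rw [map_mul, abs_mul, aeval_C]; simp
      rw [this]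
      exact le_mul_of_one_le_left (abs_nonneg _) hgR
    have hval : |aeval X.ξ (X.S k)| = |aeval η p| * |aeval η W| := by
      rw [← abs_mul, ← map_mul, ← hW, aeval_comp, hη]
    have hcd : ((X.S k).comp R).natDegree = (e k + 1) * m := by
      rw [natDegree_comp, hSd, ← hm]
    by_cases hek0 : e k = 0
    · rw [hek0] at h1
      have h2 : hS ≤ K1 * (ht P : ℝ) ^ m := by
        have h3 := W72.ht_dvd hE0 hk (n := μ) (by omega)
        rw [← hhS] at h3
        calc hS ≤ 2 ^ μ * ((μ : ℝ) + 1) * ht (NR R P) := h3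
          _ ≤ 2 ^ μ * ((μ : ℝ) + 1) * (K * (ht P : ℝ) ^ m) := by gcongr
          _ = _ := by rw [hK1d]; ring
      have hcdm : ((X.S k).comp R).natDegree ≤ m := by rw [hcd, hek0]; omega
      have hhW : (ht W : ℝ) ≤ 2 ^ m * ((m : ℝ) + 1) * (KE * hS) := by
        have h3 := W72.ht_dvd (hF0 k) hWdvd hcdm
        have h4 := hKEE (X.S k) (by rw [hSd, hek0])
        rw [← hhS] at h4
        refine h3.trans ?_
        gcongr
      have hWval : |aeval η W| ≤ K2 * hS := by
        have h3 := abs_aeval_le_max W η m ((natDegree_le_of_dvd hWdvd (hF0 k)).trans hcdm)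
        calc |aeval η W| ≤ ((m : ℝ) + 1) * (max 1 |η|) ^ m * ht W := h3
          _ ≤ ((m : ℝ) + 1) * (max 1 |η|) ^ m * (2 ^ m * ((m : ℝ) + 1) * (KE * hS)) := by gcongr
          _ = _ := by rw [hK2d]; ring
      have h3 : 1 ≤ |aeval η P| * (K2 * hS ^ (V 0 + 1)) := by
        calc (1 : ℝ) ≤ |aeval X.ξ (X.S k)| * hS ^ (V 0) := h1
          _ = |aeval η p| * |aeval η W| * hS ^ (V 0) := by rw [hval]
          _ ≤ |aeval η P| * (K2 * hS) * hS ^ (V 0) := by gcongr
          _ = _ := by ring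
      have h4 : hS ^ (V 0 + 1) ≤ K1 ^ (V 0 + 1) * (ht P : ℝ) ^ (m * (V 0 + 1)) := by
        calc hS ^ (V 0 + 1) ≤ (K1 * (ht P : ℝ) ^ m) ^ (V 0 + 1) := by gcongr
          _ = _ := by rw [mul_pow, ← pow_mul]
      apply hfin (m * (V 0 + 1) + 1) (by omega)
      calc (1 : ℝ) ≤ |aeval η P| * (K2 * hS ^ (V 0 + 1)) := h3
        _ ≤ |aeval η P| * (K2 * (K1 ^ (V 0 + 1) * (ht P : ℝ) ^ (m * (V 0 + 1)))) := by gcongr
        _ = |aeval η P| * (C3 * (ht P : ℝ) ^ (m * (V 0 + 1))) := by rw [hC3d]; ring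
        _ ≤ |aeval η P| * (ht P * (ht P : ℝ) ^ (m * (V 0 + 1))) := by gcongr
        _ = |aeval η P| * (ht P : ℝ) ^ (m * (V 0 + 1) + 1) := by ring
    · by_cases hkK : k ≤ K0
      · have h2 : |aeval η W| ≤ Bd k := by
          have h3 := abs_aeval_le_max W η _ (natDegree_le_of_dvd hWdvd (hF0 k))
          have h4 := W72.ht_dvd (hF0 k) hWdvd le_rfl
          simp only [hBd]
          exact h3.trans (mul_le_mul_of_nonneg_left h4 (by positivity))
        have h3 : c4 ≤ |aeval η P| := by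
          refine (hc4' k hkK).trans ?_
          rw [div_le_iff₀ (hBdpos k), hval]
          gcongr
        apply hfin 1 (by omega)
        rw [pow_one]
        refine hHc4.trans ?_
        gcongr
      · have hEAk : Nat.Coprime (EA k * (e k + 1)) m := (hEA k).resolve_left hek0
        have hpr := X.prime k
        have hpk : K0 < X.p k := by
          have h4 := hM k
          have h5 := X.pM k
          omega
        have hplead : ¬ ((X.p k : ℕ) : ℤ) ∣ R.leadingCoeff := by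
          intro hd
          have h4 : X.p k ∣ R.leadingCoeff.natAbs := Int.natCast_dvd.mp hd
          have h5 := Nat.le_of_dvd (Int.natAbs_pos.2 hRl) h4
          omega
        have hPdeg : P.natDegree = m * (e k + 1) := by
          have h2 := hN R (X.S k) P (X.p k) (EA k * (e k + 1)) (TD (e k)).T.leadingCoeff (by omega)
            hSq hP hk hpr hplead (X.plead k) (by
              rw [X.lead_S, pow_mul]
              congr 2)
            (fun i hi => S_coeff_dvd X k i hi) (W72.S_coeff_zero' X k) (by rw [← hm]; exact hEAk)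
          rw [← hm, hSd] at h2
          exact h2
        have hek : e k = j := by
          rw [hj, ← hPd, hPdeg, Nat.mul_div_cancel_left _ hm0]
          omega
        have hpd : p.natDegree = m * (e k + 1) := by
          rw [← hPdeg, hPfac, natDegree_C_mul hg0]
        have hp0 : p ≠ 0 := by rintro h; rw [h, mul_zero] at hPfac; exact hP0 hPfac
        have hW0 : W ≠ 0 := by
          rintro h
          rw [h, mul_zero] at hW
          exact hF0 k hW
        have hWd : W.natDegree = 0 := by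
          have h2 := congrArg natDegree hW
          rw [natDegree_mul hp0 hW0, hcd, hpd, mul_comm m] at h2
          omega
        obtain ⟨c0, hc0⟩ : ∃ c0, W = C c0 := ⟨_, eq_C_of_natDegree_eq_zero hWd⟩
        have hc00 : c0 ≠ 0 := by
          rintro rfl
          rw [C_0] at hc0
          exact hW0 hc0
        have hc0p : ¬ X.p k ∣ c0.natAbs := by
          intro hd
          have h4 : ((X.p k : ℕ) : ℤ) ∣ c0 := Int.natCast_dvd.mpr hd
          have h5 : ((X.p k : ℕ) : ℤ) ∣ ((X.S k).comp R).coeff 0 := by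
            rw [hW, hc0, coeff_mul_C]
            exact h4.mul_left _
          have h6 := const_coeff_comp (R := R) (fun i hi => S_coeff_dvd X k i hi)
          have h7 : ((X.p k : ℕ) : ℤ) ∣ (X.S k).coeff 0 := by
            have := (Int.dvd_iff_dvd_of_dvd_sub h6).1 h5
            exact this
          exact W72.S_coeff_zero' X k h7
        have hleadF : ((X.S k).comp R).leadingCoeff.natAbs = X.N k ^ (j + 1) * Cc := by
          rw [leadingCoeff_comp (by omega), X.lead_S, hSd, Int.natAbs_mul, Int.natAbs_mul,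
            Int.natAbs_pow, Int.natAbs_pow, Int.natAbs_natCast, ← hK0, hek, hCcd]
          ring
        have hc0le : c0.natAbs ≤ Cc := by
          apply Nat.le_of_dvd hCc
          have h4 : c0.natAbs ∣ X.N k ^ (j + 1) * Cc := by
            rw [← hleadF, hW, hc0, leadingCoeff_mul, leadingCoeff_C, Int.natAbs_mul]
            exact dvd_mul_left _ _
          have h5 : Nat.Coprime c0.natAbs (X.p k) :=
            ((Nat.Prime.coprime_iff_not_dvd hpr).2 hc0p).symm
          have h6 : Nat.Coprime c0.natAbs (X.N k ^ (j + 1)) := by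
            unfold SData.N
            exact Nat.Coprime.pow_right _ (Nat.Coprime.pow_right _ h5)
          exact h6.dvd_of_dvd_mul_left h4
        have hc0r : |(c0 : ℝ)| ≤ Cc := by
          have : ((c0.natAbs : ℕ) : ℝ) ≤ ((Cc : ℕ) : ℝ) := by exact_mod_cast hc0le
          rw [Nat.cast_natAbs] at this
          push_cast at this
          exact this
        have hWv : |aeval η W| ≤ Cc := by
          rw [hc0, aeval_C]
          simpa using hc0r
        -- heights
        have h3 := X.ht_S_upper hV k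
        rw [hek, ← hhS, ← hChd] at h3
        have h4 : (X.N k : ℝ) ^ (j + 1) ≤ Cc * ht P := by
          have h5 : X.N k ^ (j + 1) ≤ Cc * ht P := by
            have h6 : X.N k ^ (j + 1) * Cc ≤ ht p * c0.natAbs := by
              rw [← hleadF]
              have h7 := natAbs_coeff_le_ht ((X.S k).comp R) ((X.S k).comp R).natDegree
              rw [coeff_natDegree] at h7
              refine h7.trans (le_of_eq ?_)
              rw [hW, hc0, mul_comm p, ht_intCast_mul, mul_comm]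
            have h7 : ht P = g.natAbs * ht p := by
              conv_lhs => rw [hPfac]
              rw [ht_intCast_mul]
            have hgpos : 1 ≤ g.natAbs := Int.natAbs_pos.2 hg0
            have h8 : ht p ≤ ht P := by rw [h7]; exact Nat.le_mul_of_pos_left _ hgpos
            calc X.N k ^ (j + 1) ≤ X.N k ^ (j + 1) * Cc := Nat.le_mul_of_pos_right _ hCc
              _ ≤ ht p * c0.natAbs := h6
              _ ≤ ht P * Cc := Nat.mul_le_mul h8 hc0le
              _ = _ := mul_comm _ _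
          exact_mod_cast h5
        have h5 : hS ≤ Ch * Cc * ht P := by
          calc hS ≤ Ch * (X.N k : ℝ) ^ (j + 1) := h3
            _ ≤ Ch * (Cc * ht P) := by gcongr
            _ = _ := by ring
        rw [hek] at h1
        have h6 : 1 ≤ |aeval η P| * (C5 * (ht P : ℝ) ^ V j) := by
          calc (1 : ℝ) ≤ |aeval X.ξ (X.S k)| * hS ^ V j := h1
            _ = |aeval η p| * |aeval η W| * hS ^ V j := by rw [hval]
            _ ≤ |aeval η P| * Cc * (Ch * Cc * ht P) ^ V j := by gcongr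
            _ = _ := by rw [hC5d, mul_pow (Ch * (Cc : ℝ))]; ring
        apply hfin (V j + 1)
        · have h7 : V j ≤ V (n / m) := by
            apply hmono
            rw [hj]
            have : μ / m ≤ n / m := Nat.div_le_div_right hμn
            omega
          omega
        · calc (1 : ℝ) ≤ |aeval η P| * (C5 * (ht P : ℝ) ^ V j) := h6
            _ ≤ |aeval η P| * (ht P * (ht P : ℝ) ^ V j) := by gcongr
            _ = _ := by ring

theorem stO (hG : StG) (hL : StL) (hMM : StM) (hN : StN) (hE : StE) : StO := by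
  intro e V Mq X hM hmono hV hV40 R hR hEA hVbig η hη
  exact ⟨_, fun n => bound_pre X hG hL hMM hN hE hM hmono hV hV40 R hR hEA hVbig η hη n⟩

end Pool.Agent.H16.PI
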