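import Pool.Agent.H16.PI.O

set_option autoImplicit false

namespace Pool.Agent.H16.PI

open Polynomial Pool.Agent Pool.Agent.Helper35 Pool.Agent.Y821.PW

variable {e V Mq : ℕ → ℕ} (X : SData e V Mq)

/-- The bound at the preimages of `ω` under `R`, for a family `G` of special polynomials. -/
theorem bound_pre_gen (hG : StG) (hL : StL) (hMM : StM) (hN : StN) (hE : StE)
    (hM : Demand e Mq) (hmono : Monotone V)
    (ω : ℝ) (G : ℕ → ℤ[X]) (K00 : ℕ) (hne : ∀ P : ℤ[X], P ≠ 0 → aeval ω P ≠ 0)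
    (hG1 : ∀ k, IrrQ (G k)) (hG2 : ∀ k, (G k).natDegree = e k + 1)
    (hG3 : ∀ k, K00 < k → ∀ i, 1 ≤ i → ((X.p k : ℕ) : ℤ) ∣ (G k).coeff i)
    (hG4 : ∀ k, K00 < k → ¬ ((X.p k : ℕ) : ℤ) ∣ (G k).coeff 0)
    (hG5 : ∀ k, K00 < k → ∃ b : ℤ, ¬ ((X.p k : ℕ) : ℤ) ∣ b ∧
      b.natAbs ≤ (TD (e k)).T.leadingCoeff.natAbs ∧
      (G k).leadingCoeff = ((X.p k : ℕ) : ℤ) ^ (EA k * (e k + 1)) * b)
    (hpred : ∀ n : ℕ, ∃ c : ℝ, 0 < c ∧ ∀ P : ℤ[X], (∀ k, ¬ G k ∣ P) → P ≠ 0 →
      P.natDegree ≤ n → c ≤ |aeval ω P| * (ht P : ℝ) ^ (40 * (n + 1)))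
    (hspec : ∀ j : ℕ, ∃ c : ℝ, 0 < c ∧ ∀ k, e k = j →
      c ≤ |aeval ω (G k)| * (ht (G k) : ℝ) ^ V j)
    (hup : ∀ j : ℕ, ∃ C : ℝ, 1 ≤ C ∧ ∀ k, e k = j → (ht (G k) : ℝ) ≤ C * (X.N k : ℝ) ^ (j + 1))
    (R : ℤ[X]) (hR : 1 ≤ R.natDegree)
    (hEA : ∀ k, e k = 0 ∨ Nat.Coprime (EA k * (e k + 1)) R.natDegree)
    (hVbig : ∀ j, 40 * R.natDegree * (R.natDegree * (j + 1)) + R.natDegree ≤ V j)
    (η : ℝ) (hη : aeval η R = ω) (n : ℕ) :
    ∃ c : ℝ, 0 < c ∧ ∀ P : ℤ[X], P ≠ 0 → P.natDegree ≤ n →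
      c ≤ |aeval η P| * (ht P : ℝ) ^ (V (n / R.natDegree) + 1 +
        (R.natDegree * (V 0 + 1) + 1)) := by
  obtain ⟨m, hm⟩ : ∃ m, m = R.natDegree := ⟨_, rfl⟩
  rw [← hm]
  rw [← hm] at hR hEA hVbig
  have hRl : R.leadingCoeff ≠ 0 := by
    intro h0
    rw [leadingCoeff_eq_zero] at h0
    rw [h0, natDegree_zero] at hm
    omega
  have hm0 : 0 < m := hR
  apply general_bound
  intro μ hμ hμn
  obtain ⟨c1, hc1, hcc1⟩ := hpred μ
  obtain ⟨K, hK, hKK⟩ := hG R μ (by omega)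
  obtain ⟨CL, hCL, hCLL⟩ := hL R μ η (by omega)
  rw [← hm] at hKK hCLL
  obtain ⟨KE, hKE, hKEE⟩ := hE R 1
  -- constants
  obtain ⟨c2, hc2d⟩ : ∃ c2 : ℝ, c2 = c1 / (CL * K ^ (40 * (μ + 1))) := ⟨_, rfl⟩
  have hc2 : 0 < c2 := by rw [hc2d]; positivity
  obtain ⟨K1, hK1d⟩ : ∃ K1 : ℝ, K1 = 2 ^ μ * ((μ : ℝ) + 1) * K := ⟨_, rfl⟩
  have hK1' : 0 < K1 := by rw [hK1d]; positivity
  obtain ⟨K2, hK2d⟩ : ∃ K2 : ℝ, K2 = (((m : ℝ) + 1) * (max 1 |η|) ^ m) *
      (2 ^ m * ((m : ℝ) + 1) * KE) := ⟨_, rfl⟩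
  have hmax : (1 : ℝ) ≤ max 1 |η| := le_max_left _ _
  have hK2 : 0 < K2 := by rw [hK2d]; positivity
  obtain ⟨cs0, hcs0, hspec0⟩ := hspec 0
  obtain ⟨C3, hC3d⟩ : ∃ C3 : ℝ, C3 = K2 * K1 ^ (V 0 + 1) / cs0 := ⟨_, rfl⟩
  have hC3 : 0 < C3 := by rw [hC3d]; positivity
  -- exceptional stages
  obtain ⟨K1', hK1'⟩ : ∃ K1' : ℕ, K1' = R.leadingCoeff.natAbs := ⟨_, rfl⟩
  obtain ⟨K0, hK0⟩ : ∃ K0 : ℕ, K0 = K00 + K1' := ⟨_, rfl⟩
  have hF0 : ∀ k, (G k).comp R ≠ 0 := by
    intro k h0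
    have h1 := congrArg natDegree h0
    rw [natDegree_comp, natDegree_zero, hG2 k, ← hm] at h1
    have : 0 < (e k + 1) * m := Nat.mul_pos (by omega) hm0
    omega
  obtain ⟨Bd, hBd⟩ : ∃ Bd : ℕ → ℝ, Bd = fun k =>
      (((((G k).comp R).natDegree : ℕ) : ℝ) + 1) * (max 1 |η|) ^ ((G k).comp R).natDegree *
      (2 ^ ((G k).comp R).natDegree * (((((G k).comp R).natDegree : ℕ) : ℝ) + 1) *
        ht ((G k).comp R)) := ⟨_, rfl⟩
  have hBdpos : ∀ k, 0 < Bd k := by
    intro k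
    rw [hBd]
    have h1 : (0 : ℝ) < ht ((G k).comp R) := by exact_mod_cast ht_pos (hF0 k)
    positivity
  obtain ⟨c4, hc4, hc4'⟩ : ∃ c4 : ℝ, 0 < c4 ∧ ∀ k ≤ K0, c4 ≤ |aeval ω (G k)| / Bd k := by
    have hpos : ∀ k, 0 < |aeval ω (G k)| / Bd k := fun k =>
      div_pos (abs_pos.2 (hne _ (hG1 k).ne_zero)) (hBdpos k)
    obtain ⟨k0, _, hk0⟩ := (Finset.range (K0 + 1)).exists_min_image
      (fun k => |aeval ω (G k)| / Bd k) ⟨0, Finset.mem_range.mpr (by omega)⟩
    exact ⟨_, hpos k0, fun k hk => hk0 k (Finset.mem_range.mpr (by omega))⟩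
  -- constants for the generic stages
  obtain ⟨j, hj⟩ : ∃ j, j = μ / m - 1 := ⟨_, rfl⟩
  obtain ⟨Ch, hCh, hupj⟩ := hup j
  obtain ⟨csj, hcsj, hspecj⟩ := hspec j
  obtain ⟨Cc, hCcd⟩ : ∃ Cc : ℕ, Cc = (TD j).T.leadingCoeff.natAbs * K1' ^ (j + 1) := ⟨_, rfl⟩
  have hK0pos : 0 < K1' := by rw [hK1']; exact Int.natAbs_pos.2 hRl
  have hCc : 0 < Cc := by
    rw [hCcd]
    exact Nat.mul_pos (Int.natAbs_pos.mpr (leadingCoeff_ne_zero.mpr (TD j).irr.ne_zero))
      (by positivity)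
  have hCcr : (1 : ℝ) ≤ Cc := by exact_mod_cast hCc
  obtain ⟨C5, hC5d⟩ : ∃ C5 : ℝ, C5 = Cc * (Ch * Cc) ^ V j / csj := ⟨_, rfl⟩
  have hC5 : 0 < C5 := by rw [hC5d]; positivity
  refine ⟨⌈1 / c2⌉₊ + ⌈C3⌉₊ + ⌈1 / c4⌉₊ + ⌈C5⌉₊, fun P hP hPd hH => ?_⟩
  have hP0 := hP.ne_zero
  have hH1 : (1 : ℝ) ≤ ht P := by exact_mod_cast ht_pos hP0
  have hHc2 : 1 ≤ c2 * ht P := by
    have h1 : 1 / c2 ≤ ht P := (Nat.le_ceil _).trans (by exact_mod_cast (by omega))
    rw [div_le_iff₀ hc2] at h1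
    linarith
  have hHC3 : C3 ≤ ht P := (Nat.le_ceil _).trans (by exact_mod_cast (by omega))
  have hHc4 : 1 ≤ c4 * ht P := by
    have h1 : 1 / c4 ≤ ht P := (Nat.le_ceil _).trans (by exact_mod_cast (by omega))
    rw [div_le_iff₀ hc4] at h1
    linarith
  have hHC5 : C5 ≤ ht P := (Nat.le_ceil _).trans (by exact_mod_cast (by omega))
  obtain ⟨hE0, hEdeg, -⟩ := NR_lead (R := R) (by omega) hP0
  have hEht := hKK P hP0 (by omega)
  have hfin : ∀ E : ℕ, E ≤ V (n / m) + 1 + (m * (V 0 + 1) + 1) →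
      1 ≤ |aeval η P| * (ht P : ℝ) ^ E →
      1 ≤ |aeval η P| * (ht P : ℝ) ^ (V (n / m) + 1 + (m * (V 0 + 1) + 1)) := by
    intro E hE h1
    have : (ht P : ℝ) ^ E ≤ (ht P : ℝ) ^ (V (n / m) + 1 + (m * (V 0 + 1) + 1)) :=
      pow_le_pow_right₀ hH1 hE
    refine h1.trans ?_
    gcongr
  by_cases hG' : ∀ k, ¬ G k ∣ NR R P
  · have h1 := hcc1 (NR R P) hG' hE0 (by omega)
    have hval := hCLL P hP0 (by omega)
    rw [hη] at hval
    have h3 : (ht (NR R P) : ℝ) ^ (40 * (μ + 1)) ≤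
        K ^ (40 * (μ + 1)) * (ht P : ℝ) ^ (m * (40 * (μ + 1))) := by
      calc (ht (NR R P) : ℝ) ^ (40 * (μ + 1)) ≤ (K * (ht P : ℝ) ^ m) ^ (40 * (μ + 1)) := by gcongr
        _ = _ := by rw [mul_pow, ← pow_mul]
    have h4 : c1 ≤ (CL * |aeval η P| * (ht P : ℝ) ^ (m - 1)) *
        (K ^ (40 * (μ + 1)) * (ht P : ℝ) ^ (m * (40 * (μ + 1)))) := by
      refine h1.trans ?_
      gcongr
    have h5 : c2 ≤ |aeval η P| * (ht P : ℝ) ^ (m * (40 * (μ + 1)) + (m - 1)) := by
      rw [hc2d, div_le_iff₀ (by positivity)]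
      refine h4.trans (le_of_eq ?_)
      rw [pow_add]
      ring
    apply hfin (m * (40 * (μ + 1)) + (m - 1) + 1)
    · have h7 := hVbig (n / m)
      have h8 : μ + 1 ≤ m * (n / m + 1) := by
        have := Nat.lt_mul_div_succ n hm0
        omega
      have h9 : m * (40 * (μ + 1)) ≤ m * (40 * (m * (n / m + 1))) := by gcongr
      have h10 : m * (40 * (m * (n / m + 1))) = 40 * m * (m * (n / m + 1)) := by ring
      omega
    · calc (1 : ℝ) ≤ c2 * ht P := hHc2
        _ ≤ (|aeval η P| * (ht P : ℝ) ^ (m * (40 * (μ + 1)) + (m - 1))) * ht P := by gcongr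
        _ = _ := by ring
  · push Not at hG'
    obtain ⟨k, hk⟩ := hG'
    have hSq := hG1 k
    have hSd : (G k).natDegree = e k + 1 := hG2 k
    have hS0 := (hG1 k).ne_zero
    obtain ⟨hS, hhS⟩ : ∃ a : ℝ, a = (ht (G k) : ℝ) := ⟨_, rfl⟩
    have hS1 : 1 ≤ hS := by rw [hhS]; exact_mod_cast ht_pos hS0
    -- the primitive part
    obtain ⟨p, hp⟩ : ∃ p, p = P.primPart := ⟨_, rfl⟩
    obtain ⟨g, hg⟩ : ∃ g, g = P.content := ⟨_, rfl⟩
    have hPfac : P = C g * p := by rw [hg, hp]; exact P.eq_C_content_mul_primPart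
    have hg0 : g ≠ 0 := by
      intro h
      rw [h, C_0, zero_mul] at hPfac
      exact hP0 hPfac
    have hpprim : p.IsPrimitive := by rw [hp]; exact P.isPrimitive_primPart
    have hpE : p ∣ (G k).comp R := by
      apply (IsPrimitive.Int.dvd_iff_map_cast_dvd_map_cast _ _ hpprim).2
      have h3 : p.map (Int.castRingHom ℚ) ∣ P.map (Int.castRingHom ℚ) := by
        rw [hPfac, Polynomial.map_mul]; exact dvd_mul_left _ _
      exact h3.trans (hMM R (G k) P (by omega) hSq hP hk)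
    obtain ⟨W, hW⟩ := hpE
    have hWdvd : W ∣ (G k).comp R := ⟨p, by rw [hW, mul_comm]⟩
    have hgR : (1 : ℝ) ≤ |(g : ℝ)| := by exact_mod_cast Int.one_le_abs hg0
    have hpP : |aeval η p| ≤ |aeval η P| := by
      have : |aeval η P| = |(g : ℝ)| * |aeval η p| := by
        conv_lhs => rw [hPfac]
        rw [map_mul, abs_mul, aeval_C]; simp
      rw [this]
      exact le_mul_of_one_le_left (abs_nonneg _) hgR
    have hval : |aeval ω (G k)| = |aeval η p| * |aeval η W| := by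
      rw [← abs_mul, ← map_mul, ← hW, aeval_comp, hη]
    have hcd : ((G k).comp R).natDegree = (e k + 1) * m := by
      rw [natDegree_comp, hSd, ← hm]
    by_cases hek0 : e k = 0
    · have h1 := hspec0 k hek0
      rw [← hhS] at h1
      have h2 : hS ≤ K1 * (ht P : ℝ) ^ m := by
        have h3 := W72.ht_dvd hE0 hk (n := μ) (by omega)
        rw [← hhS] at h3
        calc hS ≤ 2 ^ μ * ((μ : ℝ) + 1) * ht (NR R P) := h3
          _ ≤ 2 ^ μ * ((μ : ℝ) + 1) * (K * (ht P : ℝ) ^ m) := by gcongr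
          _ = _ := by rw [hK1d]; ring
      have hcdm : ((G k).comp R).natDegree ≤ m := by rw [hcd, hek0]; omega
      have hhW : (ht W : ℝ) ≤ 2 ^ m * ((m : ℝ) + 1) * (KE * hS) := by
        have h3 := W72.ht_dvd (hF0 k) hWdvd hcdm
        have h4 := hKEE (G k) (by rw [hSd, hek0])
        rw [← hhS] at h4
        refine h3.trans ?_
        gcongr
      have hWval : |aeval η W| ≤ K2 * hS := by
        have h3 := abs_aeval_le_max W η m ((natDegree_le_of_dvd hWdvd (hF0 k)).trans hcdm)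
        calc |aeval η W| ≤ ((m : ℝ) + 1) * (max 1 |η|) ^ m * ht W := h3
          _ ≤ ((m : ℝ) + 1) * (max 1 |η|) ^ m * (2 ^ m * ((m : ℝ) + 1) * (KE * hS)) := by gcongr
          _ = _ := by rw [hK2d]; ring
      have h3 : cs0 ≤ |aeval η P| * (K2 * hS ^ (V 0 + 1)) := by
        calc cs0 ≤ |aeval ω (G k)| * hS ^ (V 0) := h1
          _ = |aeval η p| * |aeval η W| * hS ^ (V 0) := by rw [hval]
          _ ≤ |aeval η P| * (K2 * hS) * hS ^ (V 0) := by gcongr
          _ = _ := by ring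
      have h4 : hS ^ (V 0 + 1) ≤ K1 ^ (V 0 + 1) * (ht P : ℝ) ^ (m * (V 0 + 1)) := by
        calc hS ^ (V 0 + 1) ≤ (K1 * (ht P : ℝ) ^ m) ^ (V 0 + 1) := by gcongr
          _ = _ := by rw [mul_pow, ← pow_mul]
      apply hfin (m * (V 0 + 1) + 1) (by omega)
      have h5 : cs0 ≤ |aeval η P| * (K2 * (K1 ^ (V 0 + 1) * (ht P : ℝ) ^ (m * (V 0 + 1)))) := by
        refine h3.trans ?_
        gcongr
      calc (1 : ℝ) = cs0 / cs0 := (div_self hcs0.ne').symm
        _ ≤ |aeval η P| * (K2 * (K1 ^ (V 0 + 1) * (ht P : ℝ) ^ (m * (V 0 + 1)))) / cs0 := by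
            gcongr
        _ = |aeval η P| * (C3 * (ht P : ℝ) ^ (m * (V 0 + 1))) := by rw [hC3d]; ring
        _ ≤ |aeval η P| * (ht P * (ht P : ℝ) ^ (m * (V 0 + 1))) := by gcongr
        _ = |aeval η P| * (ht P : ℝ) ^ (m * (V 0 + 1) + 1) := by ring
    · by_cases hkK : k ≤ K0
      · have h2 : |aeval η W| ≤ Bd k := by
          have h3 := abs_aeval_le_max W η _ (natDegree_le_of_dvd hWdvd (hF0 k))
          have h4 := W72.ht_dvd (hF0 k) hWdvd le_rfl
          simp only [hBd]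
          exact h3.trans (mul_le_mul_of_nonneg_left h4 (by positivity))
        have h3 : c4 ≤ |aeval η P| := by
          refine (hc4' k hkK).trans ?_
          rw [div_le_iff₀ (hBdpos k), hval]
          gcongr
        apply hfin 1 (by omega)
        rw [pow_one]
        refine hHc4.trans ?_
        gcongr
      · have hEAk : Nat.Coprime (EA k * (e k + 1)) m := (hEA k).resolve_left hek0
        have hpr := X.prime k
        have hpk : K0 < X.p k := by
          have h4 := hM k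
          have h5 := X.pM k
          omega
        have hplead : ¬ ((X.p k : ℕ) : ℤ) ∣ R.leadingCoeff := by
          intro hd
          have h4 : X.p k ∣ R.leadingCoeff.natAbs := Int.natCast_dvd.mp hd
          have h5 := Nat.le_of_dvd (Int.natAbs_pos.2 hRl) h4
          omega
        obtain ⟨b, hb1, hb2, hb3⟩ := hG5 k (by omega)
        have hPdeg : P.natDegree = m * (e k + 1) := by
          have h2 := hN R (G k) P (X.p k) (EA k * (e k + 1)) b (by omega)
            hSq hP hk hpr hplead hb1 hb3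
            (hG3 k (by omega)) (hG4 k (by omega)) (by rw [← hm]; exact hEAk)
          rw [← hm, hSd] at h2
          exact h2
        have hek : e k = j := by
          rw [hj, ← hPd, hPdeg, Nat.mul_div_cancel_left _ hm0]
          omega
        have hpd : p.natDegree = m * (e k + 1) := by
          rw [← hPdeg, hPfac, natDegree_C_mul hg0]
        have hp0 : p ≠ 0 := by rintro h; rw [h, mul_zero] at hPfac; exact hP0 hPfac
        have hW0 : W ≠ 0 := by
          rintro h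
          rw [h, mul_zero] at hW
          exact hF0 k hW
        have hWd : W.natDegree = 0 := by
          have h2 := congrArg natDegree hW
          rw [natDegree_mul hp0 hW0, hcd, hpd, mul_comm m] at h2
          omega
        obtain ⟨c0, hc0⟩ : ∃ c0, W = C c0 := ⟨_, eq_C_of_natDegree_eq_zero hWd⟩
        have hc00 : c0 ≠ 0 := by
          rintro rfl
          rw [C_0] at hc0
          exact hW0 hc0
        have hc0p : ¬ X.p k ∣ c0.natAbs := by
          intro hd
          have h4 : ((X.p k : ℕ) : ℤ) ∣ c0 := Int.natCast_dvd.mpr hd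
          have h5 : ((X.p k : ℕ) : ℤ) ∣ ((G k).comp R).coeff 0 := by
            rw [hW, hc0, coeff_mul_C]
            exact h4.mul_left _
          have h6 := const_coeff_comp (R := R) (hG3 k (by omega))
          have h7 : ((X.p k : ℕ) : ℤ) ∣ (G k).coeff 0 := by
            have := (Int.dvd_iff_dvd_of_dvd_sub h6).1 h5
            exact this
          exact hG4 k (by omega) h7
        have hNk : X.p k ^ (EA k * (e k + 1)) = X.N k ^ (j + 1) := by
          rw [pow_mul, hek]; rfl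
        have hbpos : 0 < b.natAbs := by
          apply Int.natAbs_pos.2
          rintro rfl
          exact hb1 (dvd_zero _)
        obtain ⟨Cb, hCb⟩ : ∃ Cb : ℕ, Cb = b.natAbs * K1' ^ (j + 1) := ⟨_, rfl⟩
        have hCbpos : 0 < Cb := by rw [hCb]; positivity
        have hCbCc : Cb ≤ Cc := by
          rw [hCb, hCcd]
          rw [hek] at hb2
          exact Nat.mul_le_mul_right _ hb2
        have hleadF : ((G k).comp R).leadingCoeff.natAbs = X.N k ^ (j + 1) * Cb := by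
          rw [leadingCoeff_comp (by omega), hb3, hSd, Int.natAbs_mul, Int.natAbs_mul,
            Int.natAbs_pow, Int.natAbs_pow, Int.natAbs_natCast, ← hK1', hNk, hCb, hek]
          ring
        have hc0le : c0.natAbs ≤ Cc := by
          refine le_trans (Nat.le_of_dvd hCbpos ?_) hCbCc
          have h4 : c0.natAbs ∣ X.N k ^ (j + 1) * Cb := by
            rw [← hleadF, hW, hc0, leadingCoeff_mul, leadingCoeff_C, Int.natAbs_mul]
            exact dvd_mul_left _ _
          have h5 : Nat.Coprime c0.natAbs (X.p k) :=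
            ((Nat.Prime.coprime_iff_not_dvd hpr).2 hc0p).symm
          have h6 : Nat.Coprime c0.natAbs (X.N k ^ (j + 1)) := by
            unfold SData.N
            exact Nat.Coprime.pow_right _ (Nat.Coprime.pow_right _ h5)
          exact h6.dvd_of_dvd_mul_left h4
        have hc0r : |(c0 : ℝ)| ≤ Cc := by
          have : ((c0.natAbs : ℕ) : ℝ) ≤ ((Cc : ℕ) : ℝ) := by exact_mod_cast hc0le
          rw [Nat.cast_natAbs] at this
          push_cast at this
          exact this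
        have hWv : |aeval η W| ≤ Cc := by
          rw [hc0, aeval_C]
          simpa using hc0r
        -- heights
        have h3 := hupj k hek
        rw [← hhS] at h3
        have h4 : (X.N k : ℝ) ^ (j + 1) ≤ Cc * ht P := by
          have h5 : X.N k ^ (j + 1) ≤ Cc * ht P := by
            have h6 : X.N k ^ (j + 1) * Cb ≤ ht p * c0.natAbs := by
              rw [← hleadF]
              have h7 := natAbs_coeff_le_ht ((G k).comp R) ((G k).comp R).natDegree
              rw [coeff_natDegree] at h7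
              refine h7.trans (le_of_eq ?_)
              rw [hW, hc0, mul_comm p, ht_intCast_mul, mul_comm]
            have h7 : ht P = g.natAbs * ht p := by
              conv_lhs => rw [hPfac]
              rw [ht_intCast_mul]
            have hgpos : 1 ≤ g.natAbs := Int.natAbs_pos.2 hg0
            have h8 : ht p ≤ ht P := by rw [h7]; exact Nat.le_mul_of_pos_left _ hgpos
            calc X.N k ^ (j + 1) ≤ X.N k ^ (j + 1) * Cb := Nat.le_mul_of_pos_right _ hCbpos
              _ ≤ ht p * c0.natAbs := h6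
              _ ≤ ht P * Cc := Nat.mul_le_mul h8 hc0le
              _ = _ := mul_comm _ _
          exact_mod_cast h5
        have h5 : hS ≤ Ch * Cc * ht P := by
          calc hS ≤ Ch * (X.N k : ℝ) ^ (j + 1) := h3
            _ ≤ Ch * (Cc * ht P) := by gcongr
            _ = _ := by ring
        have h1 := hspecj k hek
        rw [← hhS] at h1
        have h6' : csj ≤ |aeval η P| * Cc * (Ch * Cc * ht P) ^ V j := by
          calc csj ≤ |aeval ω (G k)| * hS ^ V j := h1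
            _ = |aeval η p| * |aeval η W| * hS ^ V j := by rw [hval]
            _ ≤ |aeval η P| * Cc * (Ch * Cc * ht P) ^ V j := by gcongr
        have h6 : 1 ≤ |aeval η P| * (C5 * (ht P : ℝ) ^ V j) := by
          calc (1 : ℝ) = csj / csj := (div_self hcsj.ne').symm
            _ ≤ |aeval η P| * Cc * (Ch * Cc * ht P) ^ V j / csj := by gcongr
            _ = _ := by rw [hC5d, mul_pow (Ch * (Cc : ℝ))]; ring
        apply hfin (V j + 1)
        · have h7 : V j ≤ V (n / m) := by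
            apply hmono
            rw [hj]
            have : μ / m ≤ n / m := Nat.div_le_div_right hμn
            omega
          omega
        · calc (1 : ℝ) ≤ |aeval η P| * (C5 * (ht P : ℝ) ^ V j) := h6
            _ ≤ |aeval η P| * (ht P * (ht P : ℝ) ^ V j) := by gcongr
            _ = _ := by ring


end Pool.Agent.H16.PI
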