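import Pool.Agent.H16.PI.O2

set_option autoImplicit false

namespace Pool.Agent.H16.PI

open Polynomial Pool.Agent Pool.Agent.Helper35 Pool.Agent.Y821.PW

/-- The polynomial `q^s S(X/q)`, made primitive. -/
noncomputable def scP (q : ℤ) (S : ℤ[X]) : ℤ[X] := (scaleRoots S q).primPart

lemma sc_map (q : ℤ) (S : ℤ[X]) (hS : S ≠ 0) :
    (scaleRoots S q).map (Int.castRingHom ℚ) = scaleRoots (S.map (Int.castRingHom ℚ)) (q : ℚ) := by
  rw [map_scaleRoots]
  · rfl
  · simpa using hS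

lemma sc_aeval (q : ℤ) (S : ℤ[X]) (x : ℝ) :
    aeval ((q : ℝ) * x) (scaleRoots S q) = (q : ℝ) ^ S.natDegree * aeval x S := by
  have h := scaleRoots_eval₂_mul (p := S) (Int.castRingHom ℝ) x q
  simpa [aeval_def] using h

/-- `scaleRoots S q (q X) = q^s S(X)`. -/
lemma sc_comp (q : ℤ) (S : ℤ[X]) :
    (scaleRoots S q).comp (C q * X) = C (q ^ S.natDegree) * S := by
  ext i
  rw [comp_C_mul_X_coeff, coeff_scaleRoots, coeff_C_mul]
  by_cases hi : i ≤ S.natDegree
  · have : q ^ S.natDegree = q ^ (S.natDegree - i) * q ^ i := by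
      rw [← pow_add]; congr 1; omega
    rw [this]; ring
  · rw [coeff_eq_zero_of_natDegree_lt (by omega)]
    ring

lemma sc_content (q : ℤ) (S : ℤ[X]) (hS : S.IsPrimitive) :
    (scaleRoots S q).content ∣ q ^ S.natDegree := by
  have h1 : C (scaleRoots S q).content ∣ C (q ^ S.natDegree) * S := by
    rw [C_dvd_iff_dvd_coeff]
    intro i
    rw [coeff_C_mul]
    have h2 : (scaleRoots S q).content ∣ (scaleRoots S q).coeff i := content_dvd_coeff i
    rw [coeff_scaleRoots] at h2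
    by_cases hi : i ≤ S.natDegree
    · have : q ^ S.natDegree = q ^ (S.natDegree - i) * q ^ i := by
        rw [← pow_add]; congr 1; omega
      rw [this]
      have h3 := h2.mul_right (q ^ i)
      have e : q ^ (S.natDegree - i) * q ^ i * S.coeff i = S.coeff i * q ^ (S.natDegree - i) * q ^ i := by
        ring
      rw [e]; exact h3
    · rw [coeff_eq_zero_of_natDegree_lt (by omega), mul_zero]
      exact dvd_zero _
  have h3 := (dvd_content_iff_C_dvd).2 h1
  rw [content_C_mul, hS.content_eq_one, mul_one] at h3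
  exact h3.trans (normalize_dvd_iff.2 dvd_rfl)

lemma sc_fac (q : ℤ) (S : ℤ[X]) :
    scaleRoots S q = C (scaleRoots S q).content * scP q S :=
  (scaleRoots S q).eq_C_content_mul_primPart

lemma sc_content_ne (q : ℤ) (S : ℤ[X]) (hS : S ≠ 0) : (scaleRoots S q).content ≠ 0 := by
  rw [Ne, content_eq_zero_iff]
  exact scaleRoots_ne_zero hS q

lemma scP_ne (q : ℤ) (S : ℤ[X]) : scP q S ≠ 0 := (scaleRoots S q).isPrimitive_primPart.ne_zero

lemma scP_natDegree (q : ℤ) (S : ℤ[X]) : (scP q S).natDegree = S.natDegree := by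
  unfold scP
  rw [natDegree_primPart, natDegree_scaleRoots]

lemma irr_of_comp {F : Type} [Field F] {p : F[X]} {c : F} (hc : c ≠ 0)
    (h : Irreducible (p.comp (C c * X))) : Irreducible p := by
  have hd : (C c * X : F[X]).natDegree = 1 := natDegree_C_mul_X c hc
  have hp0 : p ≠ 0 := by
    rintro rfl
    rw [zero_comp] at h
    exact not_irreducible_zero h
  refine ⟨fun hu => ?_, fun a b hab => ?_⟩
  · obtain ⟨r, hr, rfl⟩ := Polynomial.isUnit_iff.1 hu
    rw [C_comp] at h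
    exact h.not_isUnit (isUnit_C.2 hr)
  · rw [hab, mul_comp] at h
    have key : ∀ a : F[X], a ≠ 0 → IsUnit (a.comp (C c * X)) → IsUnit a := by
      intro a ha hu
      have h1 := natDegree_eq_zero_of_isUnit hu
      rw [natDegree_comp, hd, mul_one] at h1
      rw [eq_C_of_natDegree_eq_zero h1] at ha ⊢
      exact isUnit_C.2 (IsUnit.mk0 _ (by rintro h0; rw [h0, C_0] at ha; exact ha rfl))
    have ha : a ≠ 0 := by rintro rfl; rw [zero_mul] at hab; exact hp0 hab
    have hb : b ≠ 0 := by rintro rfl; rw [mul_zero] at hab; exact hp0 hab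
    rcases h.isUnit_or_isUnit rfl with h1 | h1
    · exact Or.inl (key a ha h1)
    · exact Or.inr (key b hb h1)

lemma scP_comp (q : ℤ) (S : ℤ[X]) : C (scaleRoots S q).content * (scP q S).comp (C q * X) =
    C (q ^ S.natDegree) * S := by
  have h := sc_comp q S
  rw [sc_fac q S, mul_comp, C_comp] at h
  exact h

lemma scP_irr (q : ℤ) (hq : q ≠ 0) (S : ℤ[X]) (hS : IrrQ S) : IrrQ (scP q S) := by
  have hS0 : S ≠ 0 := hS.ne_zero
  have hc := sc_content_ne q S hS0
  have h := congrArg (Polynomial.map (Int.castRingHom ℚ)) (scP_comp q S)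
  rw [Polynomial.map_mul, Polynomial.map_mul, Polynomial.map_C, Polynomial.map_C,
    Polynomial.map_comp, Polynomial.map_mul, Polynomial.map_C, Polynomial.map_X] at h
  have hqq : (Int.castRingHom ℚ) q ≠ 0 := by simpa using hq
  apply irr_of_comp hqq
  have h1 : Irreducible (C ((Int.castRingHom ℚ) (q ^ S.natDegree)) * S.map (Int.castRingHom ℚ)) := by
    rw [irreducible_isUnit_mul (isUnit_C.mpr (IsUnit.mk0 _ (by simpa using fun h => absurd h hq)))]
    exact hS
  rw [← h, irreducible_isUnit_mul (isUnit_C.mpr (IsUnit.mk0 _ (by simpa using hc)))] at h1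
  exact h1

lemma scP_dvd (q : ℤ) (hq : q ≠ 0) (S P : ℤ[X]) (hS0 : S ≠ 0)
    (h : S ∣ P.comp (C q * X)) : scP q S ∣ P := by
  have hc := sc_content_ne q S hS0
  have hprim : (scP q S).IsPrimitive := (scaleRoots S q).isPrimitive_primPart
  apply (IsPrimitive.Int.dvd_iff_map_cast_dvd_map_cast _ _ hprim).2
  have h2 := congrArg (Polynomial.map (Int.castRingHom ℚ)) (scP_comp q S)
  rw [Polynomial.map_mul, Polynomial.map_mul, Polynomial.map_C, Polynomial.map_C,
    Polynomial.map_comp, Polynomial.map_mul, Polynomial.map_C, Polynomial.map_X] at h2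
  obtain ⟨W, hW⟩ := h
  have h3 := congrArg (Polynomial.map (Int.castRingHom ℚ)) hW
  rw [Polynomial.map_mul, Polynomial.map_comp, Polynomial.map_mul, Polynomial.map_C,
    Polynomial.map_X] at h3
  obtain ⟨r, hr⟩ : ∃ r : ℚ, r = (Int.castRingHom ℚ) q := ⟨_, rfl⟩
  obtain ⟨c, hcc⟩ : ∃ c : ℚ, c = (Int.castRingHom ℚ) (scaleRoots S q).content := ⟨_, rfl⟩
  have hr0 : r ≠ 0 := by rw [hr]; simpa using hq
  have hc0 : c ≠ 0 := by rw [hcc]; simpa using hc
  rw [map_pow, ← hr, ← hcc] at h2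
  rw [← hr] at h3
  have hinv : (C r * X : ℚ[X]).comp (C r⁻¹ * X) = X := by
    rw [mul_comp, C_comp, X_comp, ← mul_assoc, ← C_mul, mul_inv_cancel₀ hr0, C_1, one_mul]
  have h4 := congrArg (fun Q : ℚ[X] => Q.comp (C r⁻¹ * X)) h2
  have h5 := congrArg (fun Q : ℚ[X] => Q.comp (C r⁻¹ * X)) h3
  simp only [mul_comp, C_comp] at h4 h5
  rw [comp_assoc] at h4 h5
  simp only [mul_comp, C_comp, X_comp] at h4 h5
  rw [← mul_assoc (C r), ← C_mul, mul_inv_cancel₀ hr0, C_1, one_mul, comp_X] at h4 h5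
  -- h4 : C c * scP = C (r^s) * S', h5 : P = S' * W'
  rw [h5]
  apply Dvd.dvd.mul_right
  refine ⟨C (c / r ^ S.natDegree), ?_⟩
  have h6 : (S.map (Int.castRingHom ℚ)).comp (C r⁻¹ * X) =
      C (r ^ S.natDegree)⁻¹ * (C c * (scP q S).map (Int.castRingHom ℚ)) := by
    rw [h4, ← mul_assoc, ← C_mul, inv_mul_cancel₀ (pow_ne_zero _ hr0), C_1, one_mul]
  rw [h6, ← mul_assoc, ← C_mul, mul_comm]
  congr 2
  rw [div_eq_inv_mul]

lemma ht_sc_le (q : ℤ) (hq : q ≠ 0) (S : ℤ[X]) :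
    ht (scaleRoots S q) ≤ q.natAbs ^ S.natDegree * ht S := by
  have hq1 : 1 ≤ q.natAbs := Int.natAbs_pos.2 hq
  apply ht_le_of
  intro i
  rw [coeff_scaleRoots, Int.natAbs_mul, Int.natAbs_pow, mul_comm]
  exact Nat.mul_le_mul (Nat.pow_le_pow_right hq1 (by omega)) (natAbs_coeff_le_ht S i)

lemma ht_le_sc (q : ℤ) (hq : q ≠ 0) (S : ℤ[X]) : ht S ≤ ht (scaleRoots S q) := by
  have hq1 : 1 ≤ q.natAbs := Int.natAbs_pos.2 hq
  apply ht_le_of
  intro i
  have h := natAbs_coeff_le_ht (scaleRoots S q) i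
  rw [coeff_scaleRoots, Int.natAbs_mul, Int.natAbs_pow] at h
  exact (Nat.le_mul_of_pos_right _ (by positivity)).trans h

lemma sc_content_le (q : ℤ) (hq : q ≠ 0) (S : ℤ[X]) (hS : S.IsPrimitive) :
    (scaleRoots S q).content.natAbs ≤ q.natAbs ^ S.natDegree := by
  have h := Int.natAbs_dvd_natAbs.2 (sc_content q S hS)
  rw [Int.natAbs_pow] at h
  exact Nat.le_of_dvd (by have : 1 ≤ q.natAbs := Int.natAbs_pos.2 hq; positivity) h

lemma ht_sc_eq (q : ℤ) (S : ℤ[X]) :
    ht (scaleRoots S q) = (scaleRoots S q).content.natAbs * ht (scP q S) := by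
  conv_lhs => rw [sc_fac q S]
  rw [ht_intCast_mul]

variable {e V Mq : ℕ → ℕ} (X : SData e V Mq)

/-- The bound at the solutions of `R(η) = q ξ`. -/
theorem bound_pre_q (hG : StG) (hL : StL) (hMM : StM) (hN : StN) (hE : StE)
    (hM : Demand e Mq) (hmono : Monotone V) (hV : ∀ j, 22 ≤ V j) (hV40 : ∀ j, 40 * (j + 1) ≤ V j)
    (R : ℤ[X]) (hR : 1 ≤ R.natDegree)
    (hEA : ∀ k, e k = 0 ∨ Nat.Coprime (EA k * (e k + 1)) R.natDegree)
    (hVbig : ∀ j, 40 * R.natDegree * (R.natDegree * (j + 1)) + R.natDegree ≤ V j)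
    (q : ℤ) (hq : q ≠ 0) (η : ℝ) (hη : aeval η R = (q : ℝ) * X.ξ) (n : ℕ) :
    ∃ c : ℝ, 0 < c ∧ ∀ P : ℤ[X], P ≠ 0 → P.natDegree ≤ n →
      c ≤ |aeval η P| * (ht P : ℝ) ^ (V (n / R.natDegree) + 1 +
        (R.natDegree * (V 0 + 1) + 1)) := by
  have hne := W72.ne_zero_at X hM hV hmono hV40
  have hqr : (1 : ℝ) ≤ |(q : ℝ)| := by exact_mod_cast Int.one_le_abs hq
  have hqr0 : (0 : ℝ) < |(q : ℝ)| := by linarith
  have hqn : ((q.natAbs : ℕ) : ℝ) = |(q : ℝ)| := by
    rw [Nat.cast_natAbs]; push_cast; rfl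
  have hval : ∀ P : ℤ[X], aeval X.ξ (P.comp (C q * Polynomial.X)) = aeval ((q : ℝ) * X.ξ) P := by
    intro P
    rw [aeval_comp]
    congr 2
    simp
  have hdeg1 : (C q * Polynomial.X : ℤ[X]).natDegree = 1 := natDegree_C_mul_X q hq
  have hcomp0 : ∀ P : ℤ[X], P ≠ 0 → P.comp (C q * Polynomial.X) ≠ 0 := by
    intro P hP h0
    apply hP
    ext i
    have h1 := congrArg (fun Q : ℤ[X] => Q.coeff i) h0
    simp only [comp_C_mul_X_coeff, coeff_zero] at h1
    rcases mul_eq_zero.1 h1 with h2 | h2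
    · rw [h2, coeff_zero]
    · exact absurd h2 (pow_ne_zero _ hq)
  have hp : ∀ k, q.natAbs < k → ¬ ((X.p k : ℕ) : ℤ) ∣ q := by
    intro k hk hd
    have h4 : X.p k ∣ q.natAbs := Int.natCast_dvd.mp hd
    have h5 := Nat.le_of_dvd (Int.natAbs_pos.2 hq) h4
    have h6 := hM k
    have h7 := X.pM k
    omega
  have hprime : ∀ k, Prime ((X.p k : ℕ) : ℤ) := fun k => Nat.prime_iff_prime_int.mp (X.prime k)
  have hpc : ∀ k, q.natAbs < k → ¬ ((X.p k : ℕ) : ℤ) ∣ (scaleRoots (X.S k) q).content := by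
    intro k hk hd
    exact hp k hk ((hprime k).dvd_of_dvd_pow (hd.trans (sc_content q _ (X.S_props k).2.1)))
  have hcoef : ∀ k i, (scaleRoots (X.S k) q).coeff i =
      (scaleRoots (X.S k) q).content * (scP q (X.S k)).coeff i := by
    intro k i
    have h := congrArg (fun Q : ℤ[X] => Q.coeff i) (sc_fac q (X.S k))
    simpa only [coeff_C_mul] using h
  have hprim : ∀ k, (X.S k).IsPrimitive := fun k => (X.S_props k).2.1
  refine bound_pre_gen X hG hL hMM hN hE hM hmono ((q : ℝ) * X.ξ) (fun k => scP q (X.S k))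
    q.natAbs ?_ ?_ ?_ ?_ ?_ ?_ ?_ ?_ ?_ R hR hEA hVbig η hη n
  · intro P hP
    rw [← hval]
    exact hne _ (hcomp0 P hP)
  · intro k
    exact scP_irr q hq _ (X.S_props k).1
  · intro k
    rw [scP_natDegree, (X.S_props k).2.2.1]
  · intro k hk i hi
    have h1 : ((X.p k : ℕ) : ℤ) ∣ (scaleRoots (X.S k) q).coeff i := by
      rw [coeff_scaleRoots]
      exact (S_coeff_dvd X k i hi).mul_right _
    rw [hcoef] at h1
    exact ((hprime k).dvd_or_dvd h1).resolve_left (hpc k hk)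
  · intro k hk hd
    have h1 : ((X.p k : ℕ) : ℤ) ∣ (scaleRoots (X.S k) q).coeff 0 := by
      rw [hcoef]
      exact hd.mul_left _
    rw [coeff_scaleRoots] at h1
    rcases (hprime k).dvd_or_dvd h1 with h2 | h2
    · exact W72.S_coeff_zero' X k h2
    · exact hp k hk ((hprime k).dvd_of_dvd_pow h2)
  · intro k hk
    have h1 : (scaleRoots (X.S k) q).content * (scP q (X.S k)).leadingCoeff =
        ((X.p k : ℕ) : ℤ) ^ (EA k * (e k + 1)) * (TD (e k)).T.leadingCoeff := by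
      have h2 : (scaleRoots (X.S k) q).leadingCoeff = (X.S k).leadingCoeff :=
        leadingCoeff_scaleRoots _ _
      rw [X.lead_S] at h2
      rw [← leadingCoeff_C (scaleRoots (X.S k) q).content, ← leadingCoeff_mul, ← sc_fac, h2,
        pow_mul]
      congr 2
    have h3 : ((X.p k : ℕ) : ℤ) ^ (EA k * (e k + 1)) ∣ (scP q (X.S k)).leadingCoeff := by
      have h4 : ((X.p k : ℕ) : ℤ) ^ (EA k * (e k + 1)) ∣
          (scaleRoots (X.S k) q).content * (scP q (X.S k)).leadingCoeff := by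
        rw [h1]; exact dvd_mul_right _ _
      exact (hprime k).pow_dvd_of_dvd_mul_left _ (hpc k hk) h4
    obtain ⟨b, hb⟩ := h3
    have hpne : (((X.p k : ℕ) : ℤ) ^ (EA k * (e k + 1))) ≠ 0 := pow_ne_zero _ (hprime k).ne_zero
    have h5 : (scaleRoots (X.S k) q).content * b = (TD (e k)).T.leadingCoeff := by
      apply mul_left_cancel₀ hpne
      rw [← h1, hb]; ring
    refine ⟨b, fun hd => X.plead k (by rw [← h5]; exact hd.mul_left _), ?_, hb⟩
    apply Nat.le_of_dvd (Int.natAbs_pos.mpr (leadingCoeff_ne_zero.mpr (TD (e k)).irr.ne_zero))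
    rw [← h5, Int.natAbs_mul]
    exact dvd_mul_left _ _
  · intro n'
    obtain ⟨c, hc, hcc⟩ := W72.pred_bound X hne n'
    refine ⟨c / ((|(q : ℝ)| ^ n') ^ (40 * (n' + 1))), by positivity, fun P hP hP0 hPd => ?_⟩
    have h1 := hcc (P.comp (C q * Polynomial.X))
      (fun k hk => hP k (scP_dvd q hq _ P (X.S_irr k).ne_zero hk)) (hcomp0 P hP0)
      (by rw [natDegree_comp, hdeg1, mul_one]; exact hPd)
    rw [hval] at h1
    have h2 : (ht (P.comp (C q * Polynomial.X)) : ℝ) ≤ |(q : ℝ)| ^ n' * ht P := by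
      have h3 : ht (P.comp (C q * Polynomial.X)) ≤ q.natAbs ^ n' * ht P := by
        apply ht_le_of
        intro i
        rw [comp_C_mul_X_coeff, Int.natAbs_mul, Int.natAbs_pow]
        by_cases hi : i ≤ n'
        · rw [mul_comm]
          exact Nat.mul_le_mul (Nat.pow_le_pow_right (Int.natAbs_pos.2 hq) hi)
            (natAbs_coeff_le_ht P i)
        · rw [coeff_eq_zero_of_natDegree_lt (by omega)]
          simp
      have h4 : ((ht (P.comp (C q * Polynomial.X)) : ℕ) : ℝ) ≤ ((q.natAbs ^ n' * ht P : ℕ) : ℝ) := by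
        exact_mod_cast h3
      push_cast at h4
      rw [← hqn]
      exact h4
    rw [div_le_iff₀ (by positivity)]
    calc c ≤ |aeval ((q : ℝ) * X.ξ) P| *
        (ht (P.comp (C q * Polynomial.X)) : ℝ) ^ (40 * (n' + 1)) := h1
      _ ≤ |aeval ((q : ℝ) * X.ξ) P| * (|(q : ℝ)| ^ n' * ht P) ^ (40 * (n' + 1)) := by gcongr
      _ = _ := by rw [mul_pow]; ring
  · intro j
    refine ⟨1 / ((|(q : ℝ)| ^ (j + 1)) ^ V j), by positivity, fun k hk => ?_⟩
    have hd : (X.S k).natDegree = j + 1 := by rw [(X.S_props k).2.2.1, hk]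
    have h1 := X.spec_lower hM hV k 1 one_ne_zero
    rw [C_1, one_mul, hk] at h1
    have hcl := sc_content_le q hq (X.S k) (hprim k)
    have hclr : |(((scaleRoots (X.S k) q).content : ℤ) : ℝ)| ≤ |(q : ℝ)| ^ (j + 1) := by
      rw [hd] at hcl
      have : (((scaleRoots (X.S k) q).content.natAbs : ℕ) : ℝ) ≤ ((q.natAbs ^ (j + 1) : ℕ) : ℝ) := by
        exact_mod_cast hcl
      rw [Nat.cast_natAbs] at this
      push_cast at this
      rw [← hqn]
      exact this
    have hv : |aeval X.ξ (X.S k)| ≤ |aeval ((q : ℝ) * X.ξ) (scP q (X.S k))| := by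
      have h2 := sc_aeval q (X.S k) X.ξ
      rw [sc_fac q (X.S k), map_mul, aeval_C, hd] at h2
      have h3 := congrArg abs h2
      rw [abs_mul, abs_mul, abs_pow] at h3
      simp only [algebraMap_int_eq, eq_intCast] at h3
      have h4 : |(q : ℝ)| ^ (j + 1) * |aeval X.ξ (X.S k)| ≤
          |(q : ℝ)| ^ (j + 1) * |aeval ((q : ℝ) * X.ξ) (scP q (X.S k))| := by
        rw [← h3]
        gcongr
      exact le_of_mul_le_mul_left h4 (by positivity)
    have hh : (ht (X.S k) : ℝ) ≤ |(q : ℝ)| ^ (j + 1) * ht (scP q (X.S k)) := by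
      have h2 : ht (X.S k) ≤ q.natAbs ^ (j + 1) * ht (scP q (X.S k)) := by
        refine (ht_le_sc q hq _).trans ?_
        rw [ht_sc_eq]
        rw [hd] at hcl
        exact Nat.mul_le_mul_right _ hcl
      have h3 : ((ht (X.S k) : ℕ) : ℝ) ≤ ((q.natAbs ^ (j + 1) * ht (scP q (X.S k)) : ℕ) : ℝ) := by
        exact_mod_cast h2
      push_cast at h3
      rw [← hqn]
      exact h3
    rw [div_le_iff₀ (by positivity)]
    calc (1 : ℝ) ≤ |aeval X.ξ (X.S k)| * (ht (X.S k) : ℝ) ^ V j := h1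
      _ ≤ |aeval ((q : ℝ) * X.ξ) (scP q (X.S k))| *
          (|(q : ℝ)| ^ (j + 1) * ht (scP q (X.S k))) ^ V j := by gcongr
      _ = _ := by rw [mul_pow]; ring
  · intro j
    refine ⟨|(q : ℝ)| ^ (j + 1) * SData.Ch j, ?_, fun k hk => ?_⟩
    · have h1 : (1 : ℝ) ≤ |(q : ℝ)| ^ (j + 1) := one_le_pow₀ hqr
      have h2 : 1 ≤ SData.Ch j := SData.Ch_one_le _
      calc (1 : ℝ) = 1 * 1 := by norm_num
        _ ≤ _ := by gcongr
    · have hd : (X.S k).natDegree = j + 1 := by rw [(X.S_props k).2.2.1, hk]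
      have h3 := X.ht_S_upper hV k
      rw [hk] at h3
      have h4 : ht (scP q (X.S k)) ≤ q.natAbs ^ (j + 1) * ht (X.S k) := by
        have h5 := ht_sc_le q hq (X.S k)
        rw [ht_sc_eq, hd] at h5
        exact (Nat.le_mul_of_pos_left _
          (Int.natAbs_pos.2 (sc_content_ne q _ (X.S_irr k).ne_zero))).trans h5
      have h6 : ((ht (scP q (X.S k)) : ℕ) : ℝ) ≤ ((q.natAbs ^ (j + 1) * ht (X.S k) : ℕ) : ℝ) := by
        exact_mod_cast h4
      push_cast at h6
      calc (ht (scP q (X.S k)) : ℝ) ≤ |(q : ℝ)| ^ (j + 1) * ht (X.S k) := by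
            rw [← hqn]; exact h6
        _ ≤ |(q : ℝ)| ^ (j + 1) * (SData.Ch j * (X.N k : ℝ) ^ (j + 1)) := by gcongr
        _ = _ := by ring

end Pool.Agent.H16.PI
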